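import Pool.Agent.Helper42.T1.VB

/-! # The matrix of a twisted crossing circle in the window -/

set_option linter.unusedSimpArgs false
set_option linter.unusedVariables false

namespace Pool.Agent.Helper42.T1
open Finset Filter Topology Pool.Agent.Helper39.VC Pool.Agent.Helper39.AB Pool.Agent.Helper5.TV

theorem norm_lk (n k : ℕ) : ‖lk n k‖ = 1 := by
  unfold lk
  rw [norm_mul, norm_pow, norm_neg, norm_one, one_pow, one_mul, qr_norm]

theorem lk_ne (n k : ℕ) : lk n k ≠ 0 := by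
  intro h
  have := norm_lk n k
  rw [h, norm_zero] at this
  exact zero_ne_one this

theorem norm_lk_zpow (n k : ℕ) (a : ℤ) : ‖lk n k ^ a‖ = 1 := by
  rw [norm_zpow, norm_lk, one_zpow]

theorem lk_refl {n k : ℕ} (hk : k < n) : lk n (n-1-k) = lk n k := by
  unfold lk
  have hn : 0 < n := by omega
  have e1 : (((n-1-k:ℕ):ℤ))^2 + ((n-1-k:ℕ):ℤ) = (n:ℤ) * ((n:ℤ) - (2*k+1)) + ((k:ℤ)^2 + k) := by
    have : ((n-1-k:ℕ):ℤ) = (n:ℤ) - 1 - k := by omega
    rw [this]; ring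
  rw [e1, zpow_add₀ (qr_ne n), qr_mul_n hn]
  have e2 : (-1:ℂ)^(n-1-k) * (-1:ℂ)^((n:ℤ) - (2*k+1)) = (-1:ℂ)^k := by
    have h1 : (-1:ℂ)^(n-1-k) = (-1:ℂ)^((n:ℤ) - 1 - k) := by
      rw [← zpow_natCast]; congr 1; omega
    have h2 : (-1:ℂ)^k = (-1:ℂ)^(k:ℤ) := by rw [zpow_natCast]
    rw [h1, h2, ← zpow_add₀ (by norm_num)]
    have e3 : ((n:ℤ) - 1 - k) + ((n:ℤ) - (2*k+1)) = 2 * ((n:ℤ) - 1 - 2 * k) + k := by ring
    rw [e3, zpow_add₀ (by norm_num), zpow_mul]
    norm_num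
  rw [← mul_assoc, e2]

/-- the parity constant as an integer -/
def ci (n : ℕ) : ℤ := (n:ℤ) - 1 - 2 * KK n

theorem ci_cn (n : ℕ) : ((ci n : ℤ) : ℝ) = cn n := by unfold ci cn; push_cast; ring

theorem lk_shift {n : ℕ} (hn : 0 < n) {x : ℕ} (hx : x ≤ KK n) :
    lk n (KK n - x) = lk n (KK n) * Complex.exp (Complex.I * Real.pi * (((x:ℝ)^2 + cn n * x) / n : ℝ)) := by
  have e0 : ((KK n - x : ℕ):ℤ) = (KK n : ℤ) - x := by omega
  have e1 : (((KK n - x : ℕ):ℤ))^2 + ((KK n - x : ℕ):ℤ)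
      = ((KK n : ℤ)^2 + KK n) + ((n:ℤ) * (-x) + ((x:ℤ)^2 + ci n * x)) := by
    rw [e0]
    have : (n:ℤ) = 2 * KK n + 1 + ci n := by unfold ci; ring
    rw [this]; ring
  unfold lk
  rw [e1, zpow_add₀ (qr_ne n) ((KK n : ℤ)^2 + KK n), zpow_add₀ (qr_ne n) ((n:ℤ) * (-x)), qr_mul_n hn]
  have e2 : qr n ^ ((x:ℤ)^2 + ci n * x)
      = Complex.exp (Complex.I * Real.pi * (((x:ℝ)^2 + cn n * x) / n : ℝ)) := by
    rw [qr_zpow]
    congr 1
    rw [← ci_cn]
    push_cast
    ring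
  rw [e2]
  have e3 : (-1:ℂ)^(KK n - x) * (-1:ℂ)^(-(x:ℤ)) = (-1:ℂ)^(KK n) := by
    have h1 : (-1:ℂ)^(KK n - x) = (-1:ℂ)^((KK n:ℤ) - x) := by
      rw [← zpow_natCast]; congr 1
    have h2 : (-1:ℂ)^(KK n) = (-1:ℂ)^(KK n:ℤ) := by rw [zpow_natCast]
    rw [h1, h2, ← zpow_add₀ (by norm_num)]
    have e3 : ((KK n:ℤ) - x) + -(x:ℤ) = 2 * (-(x:ℤ)) + KK n := by ring
    rw [e3, zpow_add₀ (by norm_num), zpow_mul]
    norm_num
  calc (-1:ℂ)^(KK n - x) * (qr n ^ ((KK n:ℤ)^2 + KK n) * ((-1:ℂ)^(-(x:ℤ)) *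
        Complex.exp (Complex.I * Real.pi * (((x:ℝ)^2 + cn n * x) / n : ℝ))))
      = ((-1:ℂ)^(KK n - x) * (-1:ℂ)^(-(x:ℤ))) * qr n ^ ((KK n:ℤ)^2 + KK n) *
        Complex.exp (Complex.I * Real.pi * (((x:ℝ)^2 + cn n * x) / n : ℝ)) := by ring
    _ = _ := by rw [e3]

/-- the folded sum -/
noncomputable def Gs (n : ℕ) (a : ℤ) (r s : ℕ) : ℂ :=
  ∑ x ∈ range (KK n + 1 - max r s),
      Complex.exp (Complex.I * Real.pi * a * (((x:ℝ)^2 + cn n * x) / n : ℝ))
        * (PP (Real.pi / n) (bn n) (Real.pi / n * r) x : ℂ)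
        * (PP (Real.pi / n) (bn n) (Real.pi / n * s) x : ℂ)

theorem FF_fold {n : ℕ} (hn : 0 < n) (a : ℤ) {r s : ℕ} (hr : r ≤ KK n) (hs : s ≤ KK n) :
    FF n a r s = lk n (KK n) ^ a * ((vk n (KK n) r * vk n (KK n) s : ℝ) : ℂ)
      * (2 * Gs n a r s - (1 - cn n : ℝ)) := by
  set f : ℕ → ℂ := fun k => lk n k ^ a * ((vk n k r * vk n k s : ℝ) : ℂ) with hf
  have hrefl : ∀ k, k < n → f (n-1-k) = f k := by
    intro k hk
    simp only [hf]
    rw [lk_refl hk, vk_refl hk, vk_refl hk]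
  have hK := KK_lt hn
  -- folding
  have h1 : FF n a r s = ∑ k ∈ range (KK n + 1), f k + ∑ k ∈ range (n - 1 - KK n), f k := by
    have e : n = (KK n + 1) + (n - 1 - KK n) := by omega
    have h2 : FF n a r s = ∑ k ∈ range ((KK n + 1) + (n - 1 - KK n)), f k := by
      rw [← e]; rfl
    rw [h2, sum_range_add]
    congr 1
    rw [← sum_range_reflect (fun k => f k) (n - 1 - KK n)]
    apply sum_congr rfl
    intro k hk
    have hk' := mem_range.1 hk
    rw [← hrefl (KK n + 1 + k) (by omega)]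
    congr 1
    omega
  have h3 : ∑ k ∈ range (n - 1 - KK n), f k
      = ∑ k ∈ range (KK n + 1), f k - (1 - cn n : ℝ) * f (KK n) := by
    rcases cn_cases hn with h | h
    · have e : n - 1 - KK n = KK n := by omega
      rw [e, h.2, sum_range_succ]; simp
    · have e : n - 1 - KK n = KK n + 1 := by omega
      rw [e, h.2]; simp
  have h4 : ∑ k ∈ range (KK n + 1), f k = f (KK n) * Gs n a r s := by
    rw [← sum_range_reflect (fun k => f k) (KK n + 1)]
    have h5 : ∀ x ∈ range (KK n + 1), f (KK n + 1 - 1 - x) = f (KK n) *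
      (Complex.exp (Complex.I * Real.pi * a * (((x:ℝ)^2 + cn n * x) / n : ℝ))
        * (PP (Real.pi / n) (bn n) (Real.pi / n * r) x : ℂ)
        * (PP (Real.pi / n) (bn n) (Real.pi / n * s) x : ℂ)) := by
      intro x hx
      have hx' := mem_range.1 hx
      have e : KK n + 1 - 1 - x = KK n - x := by omega
      rw [e]
      simp only [hf]
      rw [lk_shift hn (by omega), vk_PP hn hr (by omega), vk_PP hn hs (by omega), mul_zpow,
        ← Complex.exp_int_mul]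
      have e2 : (a:ℂ) * (Complex.I * Real.pi * (((x:ℝ)^2 + cn n * x) / n : ℝ))
          = Complex.I * Real.pi * a * (((x:ℝ)^2 + cn n * x) / n : ℝ) := by ring
      rw [e2]
      push_cast
      ring
    rw [sum_congr rfl h5, ← mul_sum]
    congr 1
    unfold Gs
    symm
    apply sum_subset
    · intro x hx
      have := mem_range.1 hx
      exact mem_range.2 (by omega)
    · intro x hx hx2
      have hx' := mem_range.1 hx
      have hx2' : KK n + 1 - max r s ≤ x := by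
        by_contra h
        exact hx2 (mem_range.2 (by omega))
      -- one of the products vanishes
      have hv : ∀ t, t ≤ KK n → KK n - x < t → PP (Real.pi / n) (bn n) (Real.pi / n * t) x = 0 := by
        intro t ht h
        have h6 := vk_PP hn ht (x := x) (by omega)
        rw [vk_eq_zero_left h] at h6
        have h7 : vk n (KK n) t ≠ 0 := (vk_pos ht (by omega)).ne'
        rcases mul_eq_zero.1 h6.symm with h8 | h8
        · exact absurd h8 h7
        · exact h8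
      rcases le_total r s with h | h
      · rw [max_eq_right h] at hx2'
        rw [hv s hs (by omega)]; simp
      · rw [max_eq_left h] at hx2'
        rw [hv r hr (by omega)]; simp
  rw [h1, h3, h4]
  simp only [hf]
  ring

/-- the filter `n → ∞`, `π r / n → π/4`, `π s / n → π/4` -/
noncomputable def LL : Filter (ℕ × ℕ × ℕ) :=
  (comap (fun t : ℕ × ℕ × ℕ => t.1) atTop ⊓ comap (fun t => Real.pi / t.1 * t.2.1) (𝓝 (Real.pi/4)))
    ⊓ comap (fun t => Real.pi / t.1 * t.2.2) (𝓝 (Real.pi/4))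

instance : LL.IsCountablyGenerated := by unfold LL; infer_instance

theorem LL_n : Tendsto (fun t : ℕ × ℕ × ℕ => t.1) LL atTop :=
  tendsto_comap.mono_left (inf_le_left.trans inf_le_left)

theorem LL_r : Tendsto (fun t : ℕ × ℕ × ℕ => Real.pi / t.1 * t.2.1) LL (𝓝 (Real.pi/4)) :=
  tendsto_comap.mono_left (inf_le_left.trans inf_le_right)

theorem LL_s : Tendsto (fun t : ℕ × ℕ × ℕ => Real.pi / t.1 * t.2.2) LL (𝓝 (Real.pi/4)) :=
  tendsto_comap.mono_left inf_le_right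

theorem LL_extract {p : ℕ × ℕ × ℕ → Prop} (h : ∀ᶠ t in LL, p t) :
    ∃ η > 0, ∀ᶠ n : ℕ in atTop, ∀ r s : ℕ, |Real.pi / n * r - Real.pi/4| < η →
      |Real.pi / n * s - Real.pi/4| < η → p (n, r, s) := by
  have hb := ((atTop_basis (α := ℕ)).comap (fun t : ℕ × ℕ × ℕ => t.1)).inf
    ((Metric.nhds_basis_ball (x := Real.pi/4)).comap (fun t : ℕ × ℕ × ℕ => Real.pi / t.1 * t.2.1))
  have hb2 := hb.inf
    ((Metric.nhds_basis_ball (x := Real.pi/4)).comap (fun t : ℕ × ℕ × ℕ => Real.pi / t.1 * t.2.2))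
  obtain ⟨⟨⟨N, η1⟩, η2⟩, ⟨⟨_, h1⟩, h2⟩, h3⟩ := hb2.mem_iff.1 h
  refine ⟨min η1 η2, lt_min h1 h2, ?_⟩
  filter_upwards [eventually_ge_atTop N] with n hn r s hr hs
  apply h3
  refine ⟨⟨hn, ?_⟩, ?_⟩
  · simp only [Set.mem_preimage, Metric.mem_ball, Real.dist_eq]
    exact hr.trans_le (min_le_left _ _)
  · simp only [Set.mem_preimage, Metric.mem_ball, Real.dist_eq]
    exact hs.trans_le (min_le_right _ _)

theorem small_index {n r : ℕ} (hn : 0 < n) (h : Real.pi / n * r < 3 * Real.pi / 8) :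
    8 * r < 3 * n := by
  have hn' : (0:ℝ) < n := by exact_mod_cast hn
  have hp := Real.pi_pos
  rw [div_mul_eq_mul_div, div_lt_iff₀ hn'] at h
  have : (8:ℝ) * r < 3 * n := by nlinarith
  exact_mod_cast this

theorem Gs_limit (a : ℤ) : Tendsto (fun t : ℕ × ℕ × ℕ => ((Real.sqrt t.1 : ℝ) : ℂ)⁻¹ * Gs t.1 a t.2.1 t.2.2)
    LL (𝓝 (cc a)) := by
  have hp := Real.pi_pos
  -- replace the parity functions by functions with bounds for all t
  have key := G_limit (l := LL) (n := fun t => t.1)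
    (β := fun t => if t.1 = 0 then 0 else bn t.1) (c := fun t => if t.1 = 0 then 0 else cn t.1)
    (θ := fun t => Real.pi / t.1 * t.2.1) (θ' := fun t => Real.pi / t.1 * t.2.2)
    (M := fun t => if t.1 = 0 then 0 else KK t.1 + 1 - max t.2.1 t.2.2) LL_n
    (by intro t; split_ifs with h
        · exact le_rfl
        · exact bn_nonneg (Nat.pos_of_ne_zero h))
    (by intro t; split_ifs with h
        · norm_num
        · exact bn_le (Nat.pos_of_ne_zero h))
    (by intro t; split_ifs with h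
        · exact le_rfl
        · exact cn_nonneg (Nat.pos_of_ne_zero h))
    (by intro t; split_ifs with h
        · norm_num
        · exact cn_le (Nat.pos_of_ne_zero h))
    LL_r LL_s ?_ ?_ ?_ a
  · refine key.congr' ?_
    filter_upwards [LL_n.eventually_gt_atTop 0] with t ht
    have h0 : t.1 ≠ 0 := by
      have : 0 < t.1 := ht
      omega
    simp only [h0, if_false, Gs]
  · intro t x hx
    split_ifs at hx ⊢ with h
    · omega
    · have hn : 0 < t.1 := Nat.pos_of_ne_zero h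
      have hn' : (0:ℝ) < t.1 := by exact_mod_cast hn
      rw [← mul_add, div_mul_eq_mul_div, div_le_iff₀ hn']
      have h2 : t.2.1 + x ≤ KK t.1 := by omega
      have h3 : ((t.2.1:ℝ) + x) ≤ KK t.1 := by exact_mod_cast h2
      rw [KK_real] at h3
      have h4 := bn_nonneg hn
      have h5 := cn_nonneg hn
      nlinarith
  · intro t x hx
    split_ifs at hx ⊢ with h
    · omega
    · have hn : 0 < t.1 := Nat.pos_of_ne_zero h
      have hn' : (0:ℝ) < t.1 := by exact_mod_cast hn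
      rw [← mul_add, div_mul_eq_mul_div, div_le_iff₀ hn']
      have h2 : t.2.2 + x ≤ KK t.1 := by omega
      have h3 : ((t.2.2:ℝ) + x) ≤ KK t.1 := by exact_mod_cast h2
      rw [KK_real] at h3
      have h4 := bn_nonneg hn
      have h5 := cn_nonneg hn
      nlinarith
  · filter_upwards [LL_n.eventually_gt_atTop 100, LL_r.eventually (gt_mem_nhds (show Real.pi/4 < 3*Real.pi/8 by linarith)),
      LL_s.eventually (gt_mem_nhds (show Real.pi/4 < 3*Real.pi/8 by linarith))] with t h1 h2 h3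
    have hn : 0 < t.1 := by omega
    have h4 := small_index hn h2
    have h5 := small_index hn h3
    have h0 : t.1 ≠ 0 := by omega
    simp only [h0, if_false]
    unfold KK
    omega

/-- the entries of the twisted crossing circle in a window around the centre -/
theorem FF_window (a : ℤ) {ε : ℝ} (hε : 0 < ε) : ∃ η > 0, ∀ᶠ n : ℕ in atTop, ∀ r s : ℕ,
    |Real.pi / n * r - Real.pi/4| < η → |Real.pi / n * s - Real.pi/4| < η →
    ‖FF n a r s - lk n (KK n) ^ a * (2 * cc a) * (Real.sqrt n : ℂ) *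
      ((vk n (KK n) r * vk n (KK n) s : ℝ) : ℂ)‖
      ≤ ε * Real.sqrt n * (vk n (KK n) r * vk n (KK n) s) := by
  have hp := Real.pi_pos
  apply LL_extract (p := fun t => ‖FF t.1 a t.2.1 t.2.2 - lk t.1 (KK t.1) ^ a * (2 * cc a)
    * (Real.sqrt t.1 : ℂ) * ((vk t.1 (KK t.1) t.2.1 * vk t.1 (KK t.1) t.2.2 : ℝ) : ℂ)‖
      ≤ ε * Real.sqrt t.1 * (vk t.1 (KK t.1) t.2.1 * vk t.1 (KK t.1) t.2.2))
  have hlim : Tendsto (fun t : ℕ × ℕ × ℕ => ((Real.sqrt t.1 : ℝ) : ℂ)⁻¹ *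
      (2 * Gs t.1 a t.2.1 t.2.2 - (1 - cn t.1 : ℝ))) LL (𝓝 (2 * cc a)) := by
    have h1 := (Gs_limit a).const_mul 2
    have h2 : Tendsto (fun t : ℕ × ℕ × ℕ => (((Real.sqrt t.1)⁻¹ * (1 - cn t.1) : ℝ) : ℂ)) LL (𝓝 0) := by
      rw [← Complex.ofReal_zero]
      apply (Complex.continuous_ofReal.tendsto _).comp
      have h3 : Tendsto (fun t : ℕ × ℕ × ℕ => (Real.sqrt t.1)⁻¹) LL (𝓝 0) :=
        tendsto_inv_atTop_zero.comp (sqrt_tendsto LL_n)
      apply squeeze_zero' _ _ h3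
      · filter_upwards [LL_n.eventually_gt_atTop 0] with t ht
        exact mul_nonneg (by positivity) (by linarith [cn_le ht])
      · filter_upwards [LL_n.eventually_gt_atTop 0] with t ht
        have : 0 ≤ (Real.sqrt t.1)⁻¹ := by positivity
        nlinarith [cn_nonneg ht]
    have h4 := h1.sub h2
    rw [sub_zero] at h4
    refine h4.congr ?_
    intro t
    push_cast
    ring
  have hev : ∀ᶠ t : ℕ × ℕ × ℕ in LL, ‖((Real.sqrt t.1 : ℝ) : ℂ)⁻¹ *
      (2 * Gs t.1 a t.2.1 t.2.2 - (1 - cn t.1 : ℝ)) - 2 * cc a‖ < ε := by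
    have := hlim.eventually (Metric.ball_mem_nhds _ hε)
    filter_upwards [this] with t ht
    rwa [dist_eq_norm] at ht
  filter_upwards [hev, LL_n.eventually_gt_atTop 100, LL_r.eventually (gt_mem_nhds (show Real.pi/4 < 3*Real.pi/8 by linarith)),
      LL_s.eventually (gt_mem_nhds (show Real.pi/4 < 3*Real.pi/8 by linarith))] with t h0 h1 h2 h3
  have hn : 0 < t.1 := by omega
  have h4 := small_index hn h2
  have h5 := small_index hn h3
  have hr : t.2.1 ≤ KK t.1 := by unfold KK; omega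
  have hs : t.2.2 ≤ KK t.1 := by unfold KK; omega
  have hsq : 0 < Real.sqrt t.1 := Real.sqrt_pos.2 (by exact_mod_cast hn)
  have hsq' : ((Real.sqrt t.1 : ℝ) : ℂ) ≠ 0 := by exact_mod_cast hsq.ne'
  have hv : 0 ≤ vk t.1 (KK t.1) t.2.1 * vk t.1 (KK t.1) t.2.2 :=
    mul_nonneg (vk_nonneg (by unfold KK; omega)) (vk_nonneg (by unfold KK; omega))
  rw [FF_fold hn a hr hs]
  have e : lk t.1 (KK t.1) ^ a * ((vk t.1 (KK t.1) t.2.1 * vk t.1 (KK t.1) t.2.2 : ℝ) : ℂ)
      * (2 * Gs t.1 a t.2.1 t.2.2 - (1 - cn t.1 : ℝ)) - lk t.1 (KK t.1) ^ a * (2 * cc a)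
      * (Real.sqrt t.1 : ℂ) * ((vk t.1 (KK t.1) t.2.1 * vk t.1 (KK t.1) t.2.2 : ℝ) : ℂ)
      = lk t.1 (KK t.1) ^ a * ((vk t.1 (KK t.1) t.2.1 * vk t.1 (KK t.1) t.2.2 : ℝ) : ℂ) *
        ((Real.sqrt t.1 : ℝ) : ℂ) * (((Real.sqrt t.1 : ℝ) : ℂ)⁻¹ *
      (2 * Gs t.1 a t.2.1 t.2.2 - (1 - cn t.1 : ℝ)) - 2 * cc a) := by
    field_simp
  rw [e, norm_mul, norm_mul, norm_mul, norm_lk_zpow, one_mul, Complex.norm_real, Complex.norm_real,
    Real.norm_of_nonneg hv, Real.norm_of_nonneg hsq.le]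
  calc vk t.1 (KK t.1) t.2.1 * vk t.1 (KK t.1) t.2.2 * Real.sqrt t.1 * _
      ≤ vk t.1 (KK t.1) t.2.1 * vk t.1 (KK t.1) t.2.2 * Real.sqrt t.1 * ε := by
        apply mul_le_mul_of_nonneg_left h0.le
        positivity
    _ = _ := by ring

/-- a trivial bound for all entries -/
theorem norm_FF_le {n : ℕ} (hn : 0 < n) (a : ℤ) (r s : ℕ) :
    ‖FF n a r s‖ ≤ n * (vk n (KK n) r * vk n (KK n) s) := by
  unfold FF
  refine (norm_sum_le _ _).trans ?_
  have h : ∀ k ∈ range n, ‖lk n k ^ a * ((vk n k r * vk n k s : ℝ) : ℂ)‖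
      ≤ vk n (KK n) r * vk n (KK n) s := by
    intro k hk
    have hk' := mem_range.1 hk
    rw [norm_mul, norm_lk_zpow, one_mul, Complex.norm_real,
      Real.norm_of_nonneg (mul_nonneg (vk_nonneg hk') (vk_nonneg hk'))]
    have hK : KK n < n := by unfold KK; omega
    exact mul_le_mul (vk_le_center hn hk') (vk_le_center hn hk') (vk_nonneg hk') (vk_nonneg hK)
  refine (sum_le_sum h).trans ?_
  rw [sum_const, card_range, nsmul_eq_mul]

end Pool.Agent.Helper42.T1
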