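import Mathlib

/-! # A discrete Gaussian limit

`P_x(θ) = ∏_{l=1}^x cos(θ + h (l-β)) / cos(θ - h (l-β))`, `h = π/n`; for `θ, θ' → π/4` and
`n → ∞` the sums `n^{-1/2} ∑_x exp(i π a (x² + c x)/n) P_x(θ) P_x(θ')` converge to
`∫_0^∞ exp (-(2π - iπa) u²) du`. -/

namespace Pool.Agent.Helper42.T1
open Finset Filter Topology MeasureTheory

/-- one factor -/
noncomputable def rr (θ φ : ℝ) : ℝ := Real.cos (θ + φ) / Real.cos (θ - φ)

theorem rr_zero {θ : ℝ} (h : Real.cos θ ≠ 0) : rr θ 0 = 1 := by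
  simp [rr, h]

theorem cos_sub_pos {θ φ : ℝ} (h0 : 0 < θ) (hθ : θ < Real.pi/2) (h1 : 0 ≤ φ) (h2 : θ + φ ≤ Real.pi/2) :
    0 < Real.cos (θ - φ) := by
  apply Real.cos_pos_of_mem_Ioo
  constructor <;> linarith [Real.pi_pos]

theorem rr_nonneg {θ φ : ℝ} (h0 : 0 < θ) (hθ : θ < Real.pi/2) (h1 : 0 ≤ φ) (h2 : θ + φ ≤ Real.pi/2) : 0 ≤ rr θ φ := by
  apply div_nonneg _ (cos_sub_pos h0 hθ h1 h2).le
  apply Real.cos_nonneg_of_mem_Icc
  constructor <;> linarith [Real.pi_pos]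

theorem rr_le_exp {θ φ : ℝ} (h0 : 1/2 ≤ Real.sin θ) (h00 : 0 < θ) (hθ : θ < Real.pi/2) (h1 : 0 ≤ φ)
    (h2 : θ + φ ≤ Real.pi/2) : rr θ φ ≤ Real.exp (-(2/Real.pi * φ)) := by
  have hc := cos_sub_pos h00 hθ h1 h2
  have hs : 2/Real.pi * φ ≤ Real.sin φ := Real.mul_le_sin h1 (by linarith)
  have hs0 : 0 ≤ Real.sin φ := Real.sin_nonneg_of_nonneg_of_le_pi h1 (by linarith [Real.pi_pos])
  have e : Real.cos (θ + φ) = Real.cos (θ - φ) - 2 * Real.sin θ * Real.sin φ := by
    rw [Real.cos_add, Real.cos_sub]; ring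
  have h3 : rr θ φ = 1 - 2 * Real.sin θ * Real.sin φ / Real.cos (θ - φ) := by
    unfold rr; rw [e]; field_simp
  have h4 : 2 * Real.sin θ * Real.sin φ ≤ 2 * Real.sin θ * Real.sin φ / Real.cos (θ - φ) := by
    rw [le_div_iff₀ hc]
    have : 0 ≤ 2 * Real.sin θ * Real.sin φ := by positivity
    nlinarith [Real.cos_le_one (θ - φ)]
  have h5 : Real.sin φ ≤ 2 * Real.sin θ * Real.sin φ := by nlinarith
  rw [h3]
  have := Real.add_one_le_exp (-(2/Real.pi * φ))
  linarith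

theorem log_rr_le {θ φ : ℝ} (h0 : 0 < θ) (h1 : 0 ≤ φ) (h2 : θ + φ < Real.pi/2) :
    Real.log (rr θ φ) ≤ -(2 * Real.sin θ * Real.sin φ / Real.cos (θ - φ)) := by
  have hc := cos_sub_pos h0 (by linarith) h1 h2.le
  have hc2 : 0 < Real.cos (θ + φ) := by
    apply Real.cos_pos_of_mem_Ioo
    constructor <;> linarith [Real.pi_pos]
  have e : Real.cos (θ + φ) = Real.cos (θ - φ) - 2 * Real.sin θ * Real.sin φ := by
    rw [Real.cos_add, Real.cos_sub]; ring
  have hp : 0 < rr θ φ := div_pos hc2 hc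
  have h3 : rr θ φ - 1 = -(2 * Real.sin θ * Real.sin φ / Real.cos (θ - φ)) := by
    unfold rr; rw [e]; field_simp; ring
  rw [← h3]
  exact Real.log_le_sub_one_of_pos hp

theorem le_log_rr {θ φ : ℝ} (h0 : 0 < θ) (h1 : 0 ≤ φ) (h2 : θ + φ < Real.pi/2) :
    -(2 * Real.sin θ * Real.sin φ / Real.cos (θ + φ)) ≤ Real.log (rr θ φ) := by
  have hc := cos_sub_pos h0 (by linarith) h1 h2.le
  have hc2 : 0 < Real.cos (θ + φ) := by
    apply Real.cos_pos_of_mem_Ioo
    constructor <;> linarith [Real.pi_pos]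
  have e : Real.cos (θ - φ) = Real.cos (θ + φ) + 2 * Real.sin θ * Real.sin φ := by
    rw [Real.cos_add, Real.cos_sub]; ring
  have hp : 0 < rr θ φ := div_pos hc2 hc
  have h3 : 1 - (rr θ φ)⁻¹ = -(2 * Real.sin θ * Real.sin φ / Real.cos (θ + φ)) := by
    unfold rr; rw [inv_div, e]; field_simp; ring
  rw [← h3]
  have := Real.one_sub_inv_le_log_of_pos hp
  linarith

/-- the product -/
noncomputable def PP (h β θ : ℝ) (x : ℕ) : ℝ := ∏ l ∈ range x, rr θ (h * ((l:ℝ) + 1 - β))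

theorem sum_arith (h β : ℝ) (x : ℕ) :
    ∑ l ∈ range x, h * ((l:ℝ) + 1 - β) = h * ((x:ℝ) * (x + 1) / 2 - β * x) := by
  induction x with
  | zero => simp
  | succ x ih => rw [sum_range_succ, ih]; push_cast; ring

theorem PP_nonneg {h β θ : ℝ} {x : ℕ} (hh : 0 ≤ h) (hβ : β ≤ 1) (h0 : 0 < θ) (hθ : θ < Real.pi/2)
    (h2 : θ + h * ((x:ℝ) - β) ≤ Real.pi/2) : 0 ≤ PP h β θ x := by
  apply prod_nonneg
  intro l hl
  have hl' : (l:ℝ) + 1 ≤ x := by exact_mod_cast mem_range.1 hl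
  have : (0:ℝ) ≤ l := Nat.cast_nonneg l
  apply rr_nonneg h0 hθ
  · apply mul_nonneg hh; linarith
  · nlinarith

theorem PP_le_exp {h β θ : ℝ} {x : ℕ} (hh : 0 ≤ h) (hβ : β ≤ 1) (h00 : 0 < θ) (hθ : θ < Real.pi/2)
    (h0 : 1/2 ≤ Real.sin θ) (h2 : θ + h * ((x:ℝ) - β) ≤ Real.pi/2) :
    PP h β θ x ≤ Real.exp (-(h / Real.pi * ((x:ℝ) * (x - 1)))) := by
  have h1 : PP h β θ x ≤ ∏ l ∈ range x, Real.exp (-(2/Real.pi * (h * ((l:ℝ) + 1 - β)))) := by
    apply Finset.prod_le_prod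
    · intro l hl
      have hl' : (l:ℝ) + 1 ≤ x := by exact_mod_cast mem_range.1 hl
      have : (0:ℝ) ≤ l := Nat.cast_nonneg l
      apply rr_nonneg h00 hθ
      · apply mul_nonneg hh; linarith
      · nlinarith
    · intro l hl
      have hl' : (l:ℝ) + 1 ≤ x := by exact_mod_cast mem_range.1 hl
      have : (0:ℝ) ≤ l := Nat.cast_nonneg l
      apply rr_le_exp h0 h00 hθ
      · apply mul_nonneg hh; linarith
      · nlinarith
  refine h1.trans ?_
  rw [← Real.exp_sum]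
  apply Real.exp_le_exp.2
  rw [sum_neg_distrib, ← mul_sum, sum_arith]
  apply neg_le_neg
  have hp := Real.pi_pos
  have hx : (0:ℝ) ≤ x := Nat.cast_nonneg x
  have : 2 / Real.pi * (h * ((x:ℝ) * (x + 1) / 2 - β * x)) - h / Real.pi * ((x:ℝ) * (x - 1))
      = h / Real.pi * (2 * x * (1 - β)) := by ring
  have h3 : 0 ≤ h / Real.pi * (2 * x * (1 - β)) := by
    have : 0 ≤ 1 - β := by linarith
    positivity
  linarith

theorem PP_zero (h β θ : ℝ) : PP h β θ 0 = 1 := by simp [PP]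

/-- squeeze for the logarithm of the product -/
theorem log_PP_bounds {h β θ : ℝ} {x : ℕ} {φ : ℝ} (hh : 0 ≤ h) (hβ : β ≤ 1) (hβ0 : 0 ≤ β)
    (h00 : 0 < θ) (hφ : h * x ≤ φ) (h2 : θ + φ < Real.pi/2) (h3 : φ ≤ θ) :
    -(2 * Real.sin θ / Real.cos (θ + φ)) * (h * ((x:ℝ) * (x + 1) / 2 - β * x))
      ≤ Real.log (PP h β θ x) ∧
    Real.log (PP h β θ x) ≤ -(2 * Real.sin θ * Real.cos φ / Real.cos (θ - φ))
      * (h * ((x:ℝ) * (x + 1) / 2 - β * x)) := by
  have hx : (0:ℝ) ≤ x := Nat.cast_nonneg x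
  have hφ0 : 0 ≤ φ := le_trans (by positivity) hφ
  have hsθ : 0 < Real.sin θ := Real.sin_pos_of_pos_of_lt_pi h00 (by linarith [Real.pi_pos])
  have hcφ : 0 < Real.cos (θ + φ) := by
    apply Real.cos_pos_of_mem_Ioo
    constructor <;> linarith [Real.pi_pos]
  have hcφ' : 0 < Real.cos (θ - φ) := cos_sub_pos h00 (by linarith) hφ0 h2.le
  have hφl : ∀ l ∈ range x, 0 ≤ h * ((l:ℝ) + 1 - β) ∧ h * ((l:ℝ) + 1 - β) ≤ φ := by
    intro l hl
    have hl' : (l:ℝ) + 1 ≤ x := by exact_mod_cast mem_range.1 hl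
    have : (0:ℝ) ≤ l := Nat.cast_nonneg l
    constructor
    · apply mul_nonneg hh; linarith
    · refine le_trans ?_ hφ
      apply mul_le_mul_of_nonneg_left _ hh
      linarith
  have hlog : Real.log (PP h β θ x) = ∑ l ∈ range x, Real.log (rr θ (h * ((l:ℝ) + 1 - β))) := by
    unfold PP
    rw [Real.log_prod]
    intro l hl
    obtain ⟨h4, h5⟩ := hφl l hl
    apply ne_of_gt
    apply div_pos
    · apply Real.cos_pos_of_mem_Ioo
      constructor <;> linarith [Real.pi_pos]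
    · exact cos_sub_pos h00 (by linarith) h4 (by linarith)
  rw [hlog, ← sum_arith, mul_sum, mul_sum]
  constructor
  · apply sum_le_sum
    intro l hl
    obtain ⟨h4, h5⟩ := hφl l hl
    refine le_trans ?_ (le_log_rr h00 h4 (by linarith))
    set y := h * ((l:ℝ) + 1 - β)
    rw [neg_mul]
    apply neg_le_neg
    have h6 : 0 < Real.cos (θ + y) := by
      apply Real.cos_pos_of_mem_Ioo
      constructor <;> linarith [Real.pi_pos]
    have h7 : Real.cos (θ + φ) ≤ Real.cos (θ + y) :=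
      Real.cos_le_cos_of_nonneg_of_le_pi (by linarith) (by linarith [Real.pi_pos]) (by linarith)
    have h8 : Real.sin y ≤ y := Real.sin_le h4
    have h9 : 0 ≤ Real.sin y := Real.sin_nonneg_of_nonneg_of_le_pi h4 (by linarith [Real.pi_pos])
    calc 2 * Real.sin θ * Real.sin y / Real.cos (θ + y)
        ≤ 2 * Real.sin θ * y / Real.cos (θ + φ) := by
          apply div_le_div₀ (by positivity) _ hcφ h7
          apply mul_le_mul_of_nonneg_left h8 (by positivity)
      _ = 2 * Real.sin θ / Real.cos (θ + φ) * y := by ring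
  · apply sum_le_sum
    intro l hl
    obtain ⟨h4, h5⟩ := hφl l hl
    refine le_trans (log_rr_le h00 h4 (by linarith)) ?_
    set y := h * ((l:ℝ) + 1 - β)
    rw [neg_mul]
    apply neg_le_neg
    have h7 : Real.cos (θ - y) ≤ Real.cos (θ - φ) :=
      Real.cos_le_cos_of_nonneg_of_le_pi (by linarith) (by linarith [Real.pi_pos]) (by linarith)
    have h6 : 0 < Real.cos (θ - y) := cos_sub_pos h00 (by linarith) h4 (by linarith)
    have h10 : Real.cos φ ≤ Real.cos y :=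
      Real.cos_le_cos_of_nonneg_of_le_pi h4 (by linarith [Real.pi_pos]) h5
    have h8 : y * Real.cos y ≤ Real.sin y := by
      rcases h4.eq_or_lt with h | h
      · rw [← h]; simp
      · have hc : 0 < Real.cos y := by
          apply Real.cos_pos_of_mem_Ioo
          constructor <;> linarith [Real.pi_pos]
        have := (Real.lt_tan h (by linarith)).le
        rw [Real.tan_eq_sin_div_cos, le_div_iff₀ hc] at this
        exact this
    have h8' : y * Real.cos φ ≤ Real.sin y := by nlinarith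
    have h11 : 0 ≤ Real.cos φ := by
      apply Real.cos_nonneg_of_mem_Icc
      constructor <;> linarith [Real.pi_pos]
    calc 2 * Real.sin θ * Real.cos φ / Real.cos (θ - φ) * y
        = 2 * Real.sin θ * (y * Real.cos φ) / Real.cos (θ - φ) := by ring
      _ ≤ 2 * Real.sin θ * Real.sin y / Real.cos (θ - y) := by
          apply div_le_div₀ _ _ h6 h7
          · exact mul_nonneg (by positivity) (by linarith [mul_nonneg h4 h11])
          · apply mul_le_mul_of_nonneg_left h8' (by positivity)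

end Pool.Agent.Helper42.T1
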