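import Pool.Agent.Helper42.T1.GLim

/-! # A discrete Gaussian limit: dominated convergence -/

namespace Pool.Agent.Helper42.T1
open Finset Filter Topology MeasureTheory

/-- a sum as an integral of a step function -/
theorem step_integral (f : ℕ → ℂ) (M : ℕ) {c : ℝ} (hc : 0 < c) :
    ∫ u in Set.Ioi (0:ℝ), (if ⌊c * u⌋₊ < M then f ⌊c * u⌋₊ else 0) = (c:ℂ)⁻¹ * ∑ x ∈ range M, f x := by
  have h1 : ∀ u ∈ Set.Ici (0:ℝ), (if ⌊c * u⌋₊ < M then f ⌊c * u⌋₊ else 0)
      = ∑ x ∈ range M, (Set.Ico ((x:ℝ)/c) (((x:ℝ)+1)/c)).indicator (fun _ => f x) u := by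
    intro u hu
    have hu0 : 0 ≤ c * u := mul_nonneg hc.le hu
    have key : ∀ x : ℕ, (u ∈ Set.Ico ((x:ℝ)/c) (((x:ℝ)+1)/c)) ↔ ⌊c * u⌋₊ = x := by
      intro x
      rw [Nat.floor_eq_iff hu0, Set.mem_Ico, div_le_iff₀ hc, lt_div_iff₀ hc, mul_comm u c]
    have h2 : ∀ x ∈ range M, (Set.Ico ((x:ℝ)/c) (((x:ℝ)+1)/c)).indicator (fun _ => f x) u
        = if ⌊c * u⌋₊ = x then f x else 0 := by
      intro x _
      by_cases h : ⌊c * u⌋₊ = x
      · rw [Set.indicator_of_mem ((key x).2 h), if_pos h]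
      · rw [Set.indicator_of_notMem (fun h' => h ((key x).1 h')), if_neg h]
    rw [sum_congr rfl h2, sum_ite_eq]
    simp only [mem_range]
  rw [setIntegral_congr_set Ioi_ae_eq_Ici, setIntegral_congr_fun measurableSet_Ici h1]
  have hfin : ∀ x : ℕ, (volume : Measure ℝ) (Set.Ico ((x:ℝ)/c) (((x:ℝ)+1)/c)) ≠ ⊤ := by
    intro x; rw [Real.volume_Ico]; exact ENNReal.ofReal_ne_top
  rw [integral_finsetSum]
  · rw [mul_sum]
    apply sum_congr rfl
    intro x _
    rw [setIntegral_indicator measurableSet_Ico]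
    have e : Set.Ici (0:ℝ) ∩ Set.Ico ((x:ℝ)/c) (((x:ℝ)+1)/c) = Set.Ico ((x:ℝ)/c) (((x:ℝ)+1)/c) := by
      apply Set.inter_eq_right.2
      intro u hu
      have : (0:ℝ) ≤ x / c := by positivity
      exact this.trans hu.1
    rw [e, setIntegral_const, Measure.real, Real.volume_Ico,
      ENNReal.toReal_ofReal (by rw [sub_nonneg]; gcongr; linarith)]
    have : ((x:ℝ)+1)/c - x/c = c⁻¹ := by field_simp; ring
    rw [this, Complex.real_smul, Complex.ofReal_inv]
  · intro x _
    apply Integrable.integrableOn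
    rw [integrable_indicator_iff measurableSet_Ico]
    exact integrableOn_const (hfin x)

variable {ι : Type*} {l : Filter ι} {n : ι → ℕ} {β θ θ' c : ι → ℝ} {M : ι → ℕ}

/-- the index -/
noncomputable def xx (n : ℕ) (u : ℝ) : ℕ := ⌊Real.sqrt n * u⌋₊

theorem sqrt_tendsto (hn : Tendsto n l atTop) : Tendsto (fun t => Real.sqrt (n t)) l atTop :=
  Real.tendsto_sqrt_atTop.comp (tendsto_natCast_atTop_atTop.comp hn)

theorem xx_div (hn : Tendsto n l atTop) {u : ℝ} (hu : 0 ≤ u) :
    Tendsto (fun t => (xx (n t) u : ℝ) / Real.sqrt (n t)) l (𝓝 u) := by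
  have := (tendsto_nat_floor_mul_div_atTop hu).comp (sqrt_tendsto hn)
  refine this.congr ?_
  intro t
  simp only [Function.comp, xx]
  rw [mul_comm u]

theorem xx_sq (hn : Tendsto n l atTop) {u : ℝ} (hu : 0 ≤ u) :
    Tendsto (fun t => (xx (n t) u : ℝ)^2 / n t) l (𝓝 (u^2)) := by
  refine ((xx_div hn hu).pow 2).congr' ?_
  filter_upwards [hn.eventually_gt_atTop 0] with t ht
  have : (0:ℝ) < n t := by exact_mod_cast ht
  rw [div_pow, Real.sq_sqrt this.le]

theorem xx_one (hn : Tendsto n l atTop) {u : ℝ} (hu : 0 ≤ u) :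
    Tendsto (fun t => (xx (n t) u : ℝ) / n t) l (𝓝 0) := by
  have h1 : Tendsto (fun t => (Real.sqrt (n t))⁻¹) l (𝓝 0) :=
    tendsto_inv_atTop_zero.comp (sqrt_tendsto hn)
  have := (xx_div hn hu).mul h1
  rw [mul_zero] at this
  refine this.congr' ?_
  filter_upwards [hn.eventually_gt_atTop 0] with t ht
  have : (0:ℝ) < n t := by exact_mod_cast ht
  rw [← div_eq_mul_inv, div_div, Real.mul_self_sqrt this.le]

theorem PP_limit (hn : Tendsto n l atTop) (hβ0 : ∀ t, 0 ≤ β t) (hβ1 : ∀ t, β t ≤ 1)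
    (hθ : Tendsto θ l (𝓝 (Real.pi/4))) {u : ℝ} (hu : 0 ≤ u) :
    Tendsto (fun t => PP (Real.pi / n t) (β t) (θ t) (xx (n t) u)) l (𝓝 (Real.exp (-(Real.pi * u^2)))) := by
  have hp := Real.pi_pos
  -- the argument of the sum
  have hφ : Tendsto (fun t => Real.pi / n t * (xx (n t) u : ℝ)) l (𝓝 0) := by
    have := (xx_one hn hu).const_mul Real.pi
    rw [mul_zero] at this
    refine this.congr ?_
    intro t; ring
  have hS : Tendsto (fun t => Real.pi / n t * ((xx (n t) u : ℝ) * ((xx (n t) u : ℝ) + 1) / 2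
      - β t * (xx (n t) u : ℝ))) l (𝓝 (Real.pi * u^2/2)) := by
    have hb : Tendsto (fun t => β t * ((xx (n t) u : ℝ) / n t)) l (𝓝 0) := by
      apply squeeze_zero (g := fun t => (xx (n t) u : ℝ) / n t) _ _ (xx_one hn hu)
      · intro t; exact mul_nonneg (hβ0 t) (by positivity)
      · intro t
        have : (0:ℝ) ≤ (xx (n t) u : ℝ) / n t := by positivity
        nlinarith [hβ1 t]
    have h1 := ((((xx_sq hn hu).add (xx_one hn hu)).div_const 2).sub hb).const_mul Real.pi
    have e : Real.pi * ((u^2 + 0)/2 - 0) = Real.pi * u^2/2 := by ring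
    rw [e] at h1
    refine h1.congr ?_
    intro t; ring
  have hc4 : Real.cos (Real.pi/4) ≠ 0 := by
    rw [Real.cos_pi_div_four]; positivity
  have hA : Tendsto (fun t => -(2 * Real.sin (θ t) / Real.cos (θ t + Real.pi / n t * (xx (n t) u : ℝ))))
      l (𝓝 (-2)) := by
    have h1 : Tendsto (fun t => Real.sin (θ t)) l (𝓝 (Real.sin (Real.pi/4))) :=
      (Real.continuous_sin.tendsto _).comp hθ
    have h2 : Tendsto (fun t => Real.cos (θ t + Real.pi / n t * (xx (n t) u : ℝ))) l
        (𝓝 (Real.cos (Real.pi/4))) := by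
      have := (Real.continuous_cos.tendsto _).comp (hθ.add hφ)
      rw [add_zero] at this
      exact this
    have h3 := ((h1.const_mul 2).div h2 hc4).neg
    have e : -(2 * Real.sin (Real.pi/4) / Real.cos (Real.pi/4)) = -2 := by
      rw [Real.sin_pi_div_four, Real.cos_pi_div_four]
      field_simp
    rw [e] at h3
    exact h3
  have hB : Tendsto (fun t => -(2 * Real.sin (θ t) * Real.cos (Real.pi / n t * (xx (n t) u : ℝ))
      / Real.cos (θ t - Real.pi / n t * (xx (n t) u : ℝ)))) l (𝓝 (-2)) := by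
    have h1 : Tendsto (fun t => Real.sin (θ t)) l (𝓝 (Real.sin (Real.pi/4))) :=
      (Real.continuous_sin.tendsto _).comp hθ
    have h2 : Tendsto (fun t => Real.cos (θ t - Real.pi / n t * (xx (n t) u : ℝ))) l
        (𝓝 (Real.cos (Real.pi/4))) := by
      have := (Real.continuous_cos.tendsto _).comp (hθ.sub hφ)
      rw [sub_zero] at this
      exact this
    have h4 : Tendsto (fun t => Real.cos (Real.pi / n t * (xx (n t) u : ℝ))) l (𝓝 1) := by
      have := (Real.continuous_cos.tendsto _).comp hφ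
      rw [Real.cos_zero] at this
      exact this
    have h3 := (((h1.const_mul 2).mul h4).div h2 hc4).neg
    have e : -(2 * Real.sin (Real.pi/4) * 1 / Real.cos (Real.pi/4)) = -2 := by
      rw [Real.sin_pi_div_four, Real.cos_pi_div_four]
      field_simp
    rw [e] at h3
    exact h3
  have hlog : Tendsto (fun t => Real.log (PP (Real.pi / n t) (β t) (θ t) (xx (n t) u))) l
      (𝓝 (-(Real.pi * u^2))) := by
    have hA' := hA.mul hS
    have hB' := hB.mul hS
    have e : -2 * (Real.pi * u^2/2) = -(Real.pi * u^2) := by ring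
    rw [e] at hA' hB'
    have hev : ∀ᶠ t in l, (0 < θ t ∧ θ t + Real.pi / n t * (xx (n t) u : ℝ) < Real.pi/2 ∧
        Real.pi / n t * (xx (n t) u : ℝ) ≤ θ t) := by
      have h1 : ∀ᶠ t in l, Real.pi/8 < θ t ∧ θ t < 3 * Real.pi/8 := by
        have : Set.Ioo (Real.pi/8) (3 * Real.pi/8) ∈ 𝓝 (Real.pi/4) :=
          Ioo_mem_nhds (by linarith) (by linarith)
        exact hθ this
      have h2 : ∀ᶠ t in l, Real.pi / n t * (xx (n t) u : ℝ) < Real.pi/8 :=
        hφ.eventually (gt_mem_nhds (by linarith))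
      filter_upwards [h1, h2] with t h1 h2
      refine ⟨by linarith, by linarith, by linarith⟩
    apply tendsto_of_tendsto_of_tendsto_of_le_of_le' hA' hB'
    · filter_upwards [hev] with t ht
      exact (log_PP_bounds (by positivity) (hβ1 t) (hβ0 t) ht.1 le_rfl ht.2.1 ht.2.2).1
    · filter_upwards [hev] with t ht
      exact (log_PP_bounds (by positivity) (hβ1 t) (hβ0 t) ht.1 le_rfl ht.2.1 ht.2.2).2
  have hexp := (Real.continuous_exp.tendsto _).comp hlog
  refine hexp.congr' ?_
  have hev : ∀ᶠ t in l, (0 < θ t ∧ θ t + Real.pi / n t * (xx (n t) u : ℝ) < Real.pi/2) := by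
    have h1 : ∀ᶠ t in l, Real.pi/8 < θ t ∧ θ t < 3 * Real.pi/8 := by
      have : Set.Ioo (Real.pi/8) (3 * Real.pi/8) ∈ 𝓝 (Real.pi/4) :=
        Ioo_mem_nhds (by linarith) (by linarith)
      exact hθ this
    have h2 : ∀ᶠ t in l, Real.pi / n t * (xx (n t) u : ℝ) < Real.pi/8 :=
      hφ.eventually (gt_mem_nhds (by linarith))
    filter_upwards [h1, h2] with t h1 h2
    refine ⟨by linarith, by linarith⟩
  filter_upwards [hev] with t ht
  simp only [Function.comp]
  apply Real.exp_log
  unfold PP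
  apply prod_pos
  intro k hk
  have hk' : (k:ℝ) + 1 ≤ (xx (n t) u : ℝ) := by exact_mod_cast mem_range.1 hk
  have hk0 : (0:ℝ) ≤ k := Nat.cast_nonneg k
  have hh : 0 ≤ Real.pi / n t := by positivity
  have h4 : 0 ≤ Real.pi / n t * ((k:ℝ) + 1 - β t) := mul_nonneg hh (by linarith [hβ1 t])
  have h5 : Real.pi / n t * ((k:ℝ) + 1 - β t) ≤ Real.pi / n t * (xx (n t) u : ℝ) :=
    mul_le_mul_of_nonneg_left (by linarith [hβ0 t]) hh
  apply div_pos
  · apply Real.cos_pos_of_mem_Ioo
    constructor <;> linarith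
  · exact cos_sub_pos ht.1 (by linarith) h4 (by linarith)

/-- the limit constant -/
noncomputable def cc (a : ℤ) : ℂ :=
  ((Real.pi:ℂ) / (2 * Real.pi - Complex.I * Real.pi * a)) ^ (1/2 : ℂ) / 2

theorem cc_ne (a : ℤ) : cc a ≠ 0 := by
  unfold cc
  have h : (2 * (Real.pi:ℂ) - Complex.I * Real.pi * a) ≠ 0 := by
    intro h
    have := congrArg Complex.re h
    simp at this
  have h2 : ((Real.pi:ℂ) / (2 * Real.pi - Complex.I * Real.pi * a)) ≠ 0 :=
    div_ne_zero (by exact_mod_cast Real.pi_pos.ne') h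
  rw [div_ne_zero_iff]
  refine ⟨?_, two_ne_zero⟩
  rw [Ne, Complex.cpow_eq_zero_iff]
  tauto

/-- **the discrete Gaussian limit** -/
theorem G_limit [l.IsCountablyGenerated] (hn : Tendsto n l atTop) (hβ0 : ∀ t, 0 ≤ β t)
    (hβ1 : ∀ t, β t ≤ 1) (hc0 : ∀ t, 0 ≤ c t) (hc1 : ∀ t, c t ≤ 1)
    (hθ : Tendsto θ l (𝓝 (Real.pi/4))) (hθ' : Tendsto θ' l (𝓝 (Real.pi/4)))
    (hM1 : ∀ t x, x < M t → θ t + Real.pi / n t * ((x:ℝ) - β t) ≤ Real.pi/2)
    (hM1' : ∀ t x, x < M t → θ' t + Real.pi / n t * ((x:ℝ) - β t) ≤ Real.pi/2)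
    (hM2 : ∀ᶠ t in l, n t ≤ 8 * M t) (a : ℤ) :
    Tendsto (fun t => ((Real.sqrt (n t) : ℝ) : ℂ)⁻¹ * ∑ x ∈ range (M t),
      Complex.exp (Complex.I * Real.pi * a * (((x:ℝ)^2 + c t * x) / n t : ℝ))
        * (PP (Real.pi / n t) (β t) (θ t) x : ℂ) * (PP (Real.pi / n t) (β t) (θ' t) x : ℂ)) l
      (𝓝 (cc a)) := by
  have hp := Real.pi_pos
  set f : ι → ℕ → ℂ := fun t x =>
    Complex.exp (Complex.I * Real.pi * a * (((x:ℝ)^2 + c t * x) / n t : ℝ))
        * (PP (Real.pi / n t) (β t) (θ t) x : ℂ) * (PP (Real.pi / n t) (β t) (θ' t) x : ℂ) with hf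
  have hint : Tendsto (fun t => ∫ u in Set.Ioi (0:ℝ),
      (if ⌊Real.sqrt (n t) * u⌋₊ < M t then f t ⌊Real.sqrt (n t) * u⌋₊ else 0)) l
      (𝓝 (∫ u in Set.Ioi (0:ℝ), Complex.exp (-(2 * Real.pi - Complex.I * Real.pi * a) * (u:ℂ)^2))) := by
    apply tendsto_integral_filter_of_dominated_convergence
      (fun u => Real.exp 2 * Real.exp (-(1/2) * u^2))
    · filter_upwards with t
      apply Measurable.aestronglyMeasurable
      have h1 : Measurable (fun u : ℝ => ⌊Real.sqrt (n t) * u⌋₊) :=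
        Nat.measurable_floor.comp (measurable_const.mul measurable_id)
      have h2 : Measurable (fun k : ℕ => if k < M t then f t k else 0) := measurable_from_nat
      exact h2.comp h1
    · have hθs : ∀ {θ : ι → ℝ}, Tendsto θ l (𝓝 (Real.pi/4)) →
          ∀ᶠ t in l, 0 < θ t ∧ θ t < Real.pi/2 ∧ 1/2 ≤ Real.sin (θ t) := by
        intro θ hθ
        have h1 : ∀ᶠ t in l, Real.pi/8 < θ t ∧ θ t < 3 * Real.pi/8 := by
          have : Set.Ioo (Real.pi/8) (3 * Real.pi/8) ∈ 𝓝 (Real.pi/4) :=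
            Ioo_mem_nhds (by linarith) (by linarith)
          exact hθ this
        have h2 : ∀ᶠ t in l, 1/2 < Real.sin (θ t) := by
          apply ((Real.continuous_sin.tendsto _).comp hθ).eventually
          apply lt_mem_nhds
          rw [Real.sin_pi_div_four]
          have h3 : (1:ℝ) < Real.sqrt 2 := by
            rw [show (1:ℝ) = Real.sqrt 1 by simp]
            exact Real.sqrt_lt_sqrt (by norm_num) (by norm_num)
          linarith
        filter_upwards [h1, h2] with t h1 h2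
        exact ⟨by linarith, by linarith, h2.le⟩
      filter_upwards [hθs hθ, hθs hθ', hn.eventually_gt_atTop 0] with t h1 h2 hn0
      have hn0' : (1:ℝ) ≤ n t := by exact_mod_cast hn0
      rw [ae_restrict_iff' measurableSet_Ioi]
      apply ae_of_all
      intro u hu
      have hu0 : (0:ℝ) < u := hu
      set x := ⌊Real.sqrt (n t) * u⌋₊ with hx
      by_cases hM : x < M t
      · rw [if_pos hM]
        have hh : 0 ≤ Real.pi / n t := by positivity
        have hE : ‖Complex.exp (Complex.I * Real.pi * a * (((x:ℝ)^2 + c t * x) / n t : ℝ))‖ = 1 := by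
          have : Complex.I * Real.pi * a * (((x:ℝ)^2 + c t * x) / n t : ℝ)
              = ((Real.pi * a * (((x:ℝ)^2 + c t * x) / n t) : ℝ) : ℂ) * Complex.I := by
            push_cast; ring
          rw [this, Complex.norm_exp_ofReal_mul_I]
        rw [hf]
        simp only
        rw [norm_mul, norm_mul, hE, one_mul, Complex.norm_real, Complex.norm_real,
          Real.norm_of_nonneg (PP_nonneg hh (hβ1 t) h1.1 h1.2.1 (hM1 t x hM)),
          Real.norm_of_nonneg (PP_nonneg hh (hβ1 t) h2.1 h2.2.1 (hM1' t x hM))]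
        have k1 := PP_le_exp (x := x) hh (hβ1 t) h1.1 h1.2.1 h1.2.2 (hM1 t x hM)
        have k2 := PP_le_exp (x := x) hh (hβ1 t) h2.1 h2.2.1 h2.2.2 (hM1' t x hM)
        refine (mul_le_mul k1 k2 (PP_nonneg hh (hβ1 t) h2.1 h2.2.1 (hM1' t x hM))
          (Real.exp_pos _).le).trans ?_
        rw [← Real.exp_add, ← Real.exp_add]
        apply Real.exp_le_exp.2
        have hx1 : Real.sqrt (n t) * u < (x:ℝ) + 1 := Nat.lt_floor_add_one _
        have hsq : Real.sqrt (n t) ^ 2 = n t := Real.sq_sqrt (by linarith)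
        have hs0 : 0 ≤ Real.sqrt (n t) * u := by positivity
        have h5 : n t * u^2 ≤ ((x:ℝ)+1)^2 := by
          have : (Real.sqrt (n t) * u)^2 ≤ ((x:ℝ)+1)^2 := by
            apply pow_le_pow_left₀ hs0 hx1.le
          rw [mul_pow, hsq] at this
          exact this
        have h6 : Real.pi / n t / Real.pi = 1 / n t := by field_simp
        rw [h6]
        have h7 : u^2 ≤ 4 * (1 / n t * ((x:ℝ) * (x - 1))) + 4 := by
          have h8 : (n t:ℝ) * (4 * (1 / n t * ((x:ℝ) * (x - 1))) + 4) = 4 * ((x:ℝ) * (x-1)) + 4 * n t := by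
            field_simp
          have h9 : (n t : ℝ) * u^2 ≤ n t * (4 * (1 / n t * ((x:ℝ) * (x - 1))) + 4) := by
            rw [h8]
            nlinarith [sq_nonneg ((x:ℝ) - 1)]
          exact le_of_mul_le_mul_left h9 (by linarith)
        linarith
      · rw [if_neg hM]
        simp only [norm_zero]
        positivity
    · exact ((integrable_exp_neg_mul_sq (by norm_num)).const_mul _).integrableOn
    · rw [ae_restrict_iff' measurableSet_Ioi]
      apply ae_of_all
      intro u hu
      have hu0 : (0:ℝ) < u := hu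
      have hxM : ∀ᶠ t in l, ⌊Real.sqrt (n t) * u⌋₊ < M t := by
        have h1 := xx_one hn hu0.le
        have h2 : ∀ᶠ t in l, (xx (n t) u : ℝ) / n t < 1/8 := h1.eventually (gt_mem_nhds (by norm_num))
        filter_upwards [h2, hM2, hn.eventually_gt_atTop 0] with t h2 h3 h4
        have h4' : (0:ℝ) < n t := by exact_mod_cast h4
        rw [div_lt_iff₀ h4'] at h2
        have h3' : (n t : ℝ) ≤ 8 * M t := by exact_mod_cast h3
        have : (xx (n t) u : ℝ) < M t := by linarith
        exact_mod_cast this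
      have hlim : Tendsto (fun t => f t (xx (n t) u)) l
          (𝓝 (Complex.exp (Complex.I * Real.pi * a * (u^2 : ℝ)) * (Real.exp (-(Real.pi * u^2)) : ℂ)
            * (Real.exp (-(Real.pi * u^2)) : ℂ))) := by
        have h1 : Tendsto (fun t => (((xx (n t) u:ℝ)^2 + c t * xx (n t) u) / n t : ℝ)) l (𝓝 (u^2)) := by
          have h2 : Tendsto (fun t => c t * ((xx (n t) u : ℝ) / n t)) l (𝓝 0) := by
            apply squeeze_zero (g := fun t => (xx (n t) u : ℝ) / n t) _ _ (xx_one hn hu0.le)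
            · intro t; exact mul_nonneg (hc0 t) (by positivity)
            · intro t
              have : (0:ℝ) ≤ (xx (n t) u : ℝ) / n t := by positivity
              nlinarith [hc1 t]
          have h3 := (xx_sq hn hu0.le).add h2
          rw [add_zero] at h3
          refine h3.congr ?_
          intro t; ring
        have h4 : Tendsto (fun t => Complex.exp (Complex.I * Real.pi * a *
            (((xx (n t) u:ℝ)^2 + c t * xx (n t) u) / n t : ℝ))) l
            (𝓝 (Complex.exp (Complex.I * Real.pi * a * (u^2 : ℝ)))) := by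
          apply (Complex.continuous_exp.tendsto _).comp
          apply Tendsto.const_mul
          exact (Complex.continuous_ofReal.tendsto _).comp h1
        have h5 : ∀ {θ : ι → ℝ}, Tendsto θ l (𝓝 (Real.pi/4)) →
            Tendsto (fun t => (PP (Real.pi / n t) (β t) (θ t) (xx (n t) u) : ℂ)) l
              (𝓝 (Real.exp (-(Real.pi * u^2)) : ℂ)) := by
          intro θ hθ
          have := (Complex.continuous_ofReal.tendsto _).comp (PP_limit hn hβ0 hβ1 hθ hu0.le)
          exact this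
        exact (h4.mul (h5 hθ)).mul (h5 hθ')
      have e : Complex.exp (Complex.I * Real.pi * a * (u^2 : ℝ)) * (Real.exp (-(Real.pi * u^2)) : ℂ)
            * (Real.exp (-(Real.pi * u^2)) : ℂ)
          = Complex.exp (-(2 * Real.pi - Complex.I * Real.pi * a) * (u:ℂ)^2) := by
        push_cast
        rw [← Complex.exp_add, ← Complex.exp_add]
        congr 1
        ring
      rw [e] at hlim
      refine hlim.congr' ?_
      filter_upwards [hxM] with t ht
      rw [if_pos ht]
      rfl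
  have hg : ∫ u in Set.Ioi (0:ℝ), Complex.exp (-(2 * Real.pi - Complex.I * Real.pi * a) * (u:ℂ)^2)
      = cc a := by
    rw [integral_gaussian_complex_Ioi]
    · rfl
    · simp
      exact hp
  rw [hg] at hint
  refine hint.congr' ?_
  filter_upwards [hn.eventually_gt_atTop 0] with t ht
  have : 0 < Real.sqrt (n t) := Real.sqrt_pos.2 (by exact_mod_cast ht)
  rw [step_integral (f t) (M t) this]

end Pool.Agent.Helper42.T1
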