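import Pool.Agent.Helper42.T1.GLim2

/-! # A discrete Gaussian limit with one factor -/

namespace Pool.Agent.Helper42.T1
open Finset Filter Topology MeasureTheory

variable {ι : Type*} {l : Filter ι} {n : ι → ℕ} {β θ θ' c : ι → ℝ} {M : ι → ℕ}

/-- the limit constant -/
noncomputable def c1 (a : ℤ) : ℂ :=
  ((Real.pi:ℂ) / (Real.pi - Complex.I * Real.pi * a)) ^ (1/2 : ℂ) / 2

theorem c1_ne (a : ℤ) : c1 a ≠ 0 := by
  unfold c1
  have h : ((Real.pi:ℂ) - Complex.I * Real.pi * a) ≠ 0 := by
    intro h
    have := congrArg Complex.re h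
    simp at this
  have h2 : ((Real.pi:ℂ) / (Real.pi - Complex.I * Real.pi * a)) ≠ 0 :=
    div_ne_zero (by exact_mod_cast Real.pi_pos.ne') h
  rw [div_ne_zero_iff]
  refine ⟨?_, two_ne_zero⟩
  rw [Ne, Complex.cpow_eq_zero_iff]
  tauto

/-- **the discrete Gaussian limit, one factor** -/
theorem G1_limit [l.IsCountablyGenerated] (hn : Tendsto n l atTop) (hβ0 : ∀ t, 0 ≤ β t)
    (hβ1 : ∀ t, β t ≤ 1) (hc0 : ∀ t, 0 ≤ c t) (hc1 : ∀ t, c t ≤ 1)
    (hθ : Tendsto θ l (𝓝 (Real.pi/4)))
    (hM1 : ∀ t x, x < M t → θ t + Real.pi / n t * ((x:ℝ) - β t) ≤ Real.pi/2)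
    (hM2 : ∀ᶠ t in l, n t ≤ 8 * M t) (a : ℤ) :
    Tendsto (fun t => ((Real.sqrt (n t) : ℝ) : ℂ)⁻¹ * ∑ x ∈ range (M t),
      Complex.exp (Complex.I * Real.pi * a * (((x:ℝ)^2 + c t * x) / n t : ℝ))
        * (PP (Real.pi / n t) (β t) (θ t) x : ℂ)) l
      (𝓝 (c1 a)) := by
  have hp := Real.pi_pos
  set f : ι → ℕ → ℂ := fun t x =>
    Complex.exp (Complex.I * Real.pi * a * (((x:ℝ)^2 + c t * x) / n t : ℝ))
        * (PP (Real.pi / n t) (β t) (θ t) x : ℂ) with hf
  have hint : Tendsto (fun t => ∫ u in Set.Ioi (0:ℝ),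
      (if ⌊Real.sqrt (n t) * u⌋₊ < M t then f t ⌊Real.sqrt (n t) * u⌋₊ else 0)) l
      (𝓝 (∫ u in Set.Ioi (0:ℝ), Complex.exp (-(Real.pi - Complex.I * Real.pi * a) * (u:ℂ)^2))) := by
    apply tendsto_integral_filter_of_dominated_convergence
      (fun u => Real.exp 1 * Real.exp (-(1/4) * u^2))
    · filter_upwards with t
      apply Measurable.aestronglyMeasurable
      have h1 : Measurable (fun u : ℝ => ⌊Real.sqrt (n t) * u⌋₊) :=
        Nat.measurable_floor.comp (measurable_const.mul measurable_id)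
      have h2 : Measurable (fun k : ℕ => if k < M t then f t k else 0) := measurable_from_nat
      exact h2.comp h1
    · have hθs : ∀ {θ : ι → ℝ}, Tendsto θ l (𝓝 (Real.pi/4)) →
          ∀ᶠ t in l, 0 < θ t ∧ θ t < Real.pi/2 ∧ 1/2 ≤ Real.sin (θ t) := by
        intro θ hθ
        have h1 : ∀ᶠ t in l, Real.pi/8 < θ t ∧ θ t < 3 * Real.pi/8 := by
          have : Set.Ioo (Real.pi/8) (3 * Real.pi/8) ∈ 𝓝 (Real.pi/4) :=
            Ioo_mem_nhds (by linarith) (by linarith)
          exact hθ this
        have h2 : ∀ᶠ t in l, 1/2 < Real.sin (θ t) := by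
          apply ((Real.continuous_sin.tendsto _).comp hθ).eventually
          apply lt_mem_nhds
          rw [Real.sin_pi_div_four]
          have h3 : (1:ℝ) < Real.sqrt 2 := by
            rw [show (1:ℝ) = Real.sqrt 1 by simp]
            exact Real.sqrt_lt_sqrt (by norm_num) (by norm_num)
          linarith
        filter_upwards [h1, h2] with t h1 h2
        exact ⟨by linarith, by linarith, h2.le⟩
      filter_upwards [hθs hθ, hn.eventually_gt_atTop 0] with t h1 hn0
      have hn0' : (1:ℝ) ≤ n t := by exact_mod_cast hn0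
      rw [ae_restrict_iff' measurableSet_Ioi]
      apply ae_of_all
      intro u hu
      have hu0 : (0:ℝ) < u := hu
      set x := ⌊Real.sqrt (n t) * u⌋₊ with hx
      by_cases hM : x < M t
      · rw [if_pos hM]
        have hh : 0 ≤ Real.pi / n t := by positivity
        have hE : ‖Complex.exp (Complex.I * Real.pi * a * (((x:ℝ)^2 + c t * x) / n t : ℝ))‖ = 1 := by
          have : Complex.I * Real.pi * a * (((x:ℝ)^2 + c t * x) / n t : ℝ)
              = ((Real.pi * a * (((x:ℝ)^2 + c t * x) / n t) : ℝ) : ℂ) * Complex.I := by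
            push_cast; ring
          rw [this, Complex.norm_exp_ofReal_mul_I]
        rw [hf]
        simp only
        rw [norm_mul, hE, one_mul, Complex.norm_real,
          Real.norm_of_nonneg (PP_nonneg hh (hβ1 t) h1.1 h1.2.1 (hM1 t x hM))]
        have k1 := PP_le_exp (x := x) hh (hβ1 t) h1.1 h1.2.1 h1.2.2 (hM1 t x hM)
        refine k1.trans ?_
        rw [← Real.exp_add]
        apply Real.exp_le_exp.2
        have hx1 : Real.sqrt (n t) * u < (x:ℝ) + 1 := Nat.lt_floor_add_one _
        have hsq : Real.sqrt (n t) ^ 2 = n t := Real.sq_sqrt (by linarith)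
        have hs0 : 0 ≤ Real.sqrt (n t) * u := by positivity
        have h5 : n t * u^2 ≤ ((x:ℝ)+1)^2 := by
          have : (Real.sqrt (n t) * u)^2 ≤ ((x:ℝ)+1)^2 := by
            apply pow_le_pow_left₀ hs0 hx1.le
          rw [mul_pow, hsq] at this
          exact this
        have h6 : Real.pi / n t / Real.pi = 1 / n t := by field_simp
        rw [h6]
        have h7 : u^2 ≤ 4 * (1 / n t * ((x:ℝ) * (x - 1))) + 4 := by
          have h8 : (n t:ℝ) * (4 * (1 / n t * ((x:ℝ) * (x - 1))) + 4) = 4 * ((x:ℝ) * (x-1)) + 4 * n t := by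
            field_simp
          have h9 : (n t : ℝ) * u^2 ≤ n t * (4 * (1 / n t * ((x:ℝ) * (x - 1))) + 4) := by
            rw [h8]
            nlinarith [sq_nonneg ((x:ℝ) - 1)]
          exact le_of_mul_le_mul_left h9 (by linarith)
        linarith
      · rw [if_neg hM]
        simp only [norm_zero]
        positivity
    · exact ((integrable_exp_neg_mul_sq (by norm_num)).const_mul _).integrableOn
    · rw [ae_restrict_iff' measurableSet_Ioi]
      apply ae_of_all
      intro u hu
      have hu0 : (0:ℝ) < u := hu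
      have hxM : ∀ᶠ t in l, ⌊Real.sqrt (n t) * u⌋₊ < M t := by
        have h1 := xx_one hn hu0.le
        have h2 : ∀ᶠ t in l, (xx (n t) u : ℝ) / n t < 1/8 := h1.eventually (gt_mem_nhds (by norm_num))
        filter_upwards [h2, hM2, hn.eventually_gt_atTop 0] with t h2 h3 h4
        have h4' : (0:ℝ) < n t := by exact_mod_cast h4
        rw [div_lt_iff₀ h4'] at h2
        have h3' : (n t : ℝ) ≤ 8 * M t := by exact_mod_cast h3
        have : (xx (n t) u : ℝ) < M t := by linarith
        exact_mod_cast this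
      have hlim : Tendsto (fun t => f t (xx (n t) u)) l
          (𝓝 (Complex.exp (Complex.I * Real.pi * a * (u^2 : ℝ)) * (Real.exp (-(Real.pi * u^2)) : ℂ))) := by
        have h1 : Tendsto (fun t => (((xx (n t) u:ℝ)^2 + c t * xx (n t) u) / n t : ℝ)) l (𝓝 (u^2)) := by
          have h2 : Tendsto (fun t => c t * ((xx (n t) u : ℝ) / n t)) l (𝓝 0) := by
            apply squeeze_zero (g := fun t => (xx (n t) u : ℝ) / n t) _ _ (xx_one hn hu0.le)
            · intro t; exact mul_nonneg (hc0 t) (by positivity)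
            · intro t
              have : (0:ℝ) ≤ (xx (n t) u : ℝ) / n t := by positivity
              nlinarith [hc1 t]
          have h3 := (xx_sq hn hu0.le).add h2
          rw [add_zero] at h3
          refine h3.congr ?_
          intro t; ring
        have h4 : Tendsto (fun t => Complex.exp (Complex.I * Real.pi * a *
            (((xx (n t) u:ℝ)^2 + c t * xx (n t) u) / n t : ℝ))) l
            (𝓝 (Complex.exp (Complex.I * Real.pi * a * (u^2 : ℝ)))) := by
          apply (Complex.continuous_exp.tendsto _).comp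
          apply Tendsto.const_mul
          exact (Complex.continuous_ofReal.tendsto _).comp h1
        have h5 : ∀ {θ : ι → ℝ}, Tendsto θ l (𝓝 (Real.pi/4)) →
            Tendsto (fun t => (PP (Real.pi / n t) (β t) (θ t) (xx (n t) u) : ℂ)) l
              (𝓝 (Real.exp (-(Real.pi * u^2)) : ℂ)) := by
          intro θ hθ
          have := (Complex.continuous_ofReal.tendsto _).comp (PP_limit hn hβ0 hβ1 hθ hu0.le)
          exact this
        exact h4.mul (h5 hθ)
      have e : Complex.exp (Complex.I * Real.pi * a * (u^2 : ℝ)) * (Real.exp (-(Real.pi * u^2)) : ℂ)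
          = Complex.exp (-(Real.pi - Complex.I * Real.pi * a) * (u:ℂ)^2) := by
        push_cast
        rw [← Complex.exp_add]
        congr 1
        ring
      rw [e] at hlim
      refine hlim.congr' ?_
      filter_upwards [hxM] with t ht
      rw [if_pos ht]
      rfl
  have hg : ∫ u in Set.Ioi (0:ℝ), Complex.exp (-(Real.pi - Complex.I * Real.pi * a) * (u:ℂ)^2)
      = c1 a := by
    rw [integral_gaussian_complex_Ioi]
    · rfl
    · simp
      exact hp
  rw [hg] at hint
  refine hint.congr' ?_
  filter_upwards [hn.eventually_gt_atTop 0] with t ht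
  have : 0 < Real.sqrt (n t) := Real.sqrt_pos.2 (by exact_mod_cast ht)
  rw [step_integral (f t) (M t) this]

end Pool.Agent.Helper42.T1
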