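import Pool.Agent.Helper42.T1.ZLim
import Pool.Agent.Helper42.T1.GLim3

/-! # The open state sum (plat closures) -/

set_option linter.unusedSimpArgs false
set_option linter.unusedVariables false

namespace Pool.Agent.Helper42.T1
open Finset Filter Topology Pool.Agent.Helper39.VC Pool.Agent.Helper39.AB Pool.Agent.Helper5.TV

theorem PP_theta_zero (n : ℕ) (x : ℕ) (hx : x ≤ KK n) (hn : 0 < n) :
    PP (Real.pi / n) (bn n) (Real.pi / n * ((0:ℕ):ℝ)) x = 1 := by
  have h := vk_PP hn (i := 0) (Nat.zero_le _) hx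
  rw [vk_zero, vk_zero, one_mul] at h
  exact h.symm

theorem Gs1_limit (a : ℤ) : Tendsto (fun t : ℕ × ℕ × ℕ => ((Real.sqrt t.1 : ℝ) : ℂ)⁻¹ * Gs t.1 a 0 t.2.2)
    LL (𝓝 (c1 a)) := by
  have hp := Real.pi_pos
  have key := G1_limit (l := LL) (n := fun t => t.1)
    (β := fun t => if t.1 = 0 then 0 else bn t.1) (c := fun t => if t.1 = 0 then 0 else cn t.1)
    (θ := fun t => Real.pi / t.1 * t.2.2)
    (M := fun t => if t.1 = 0 then 0 else KK t.1 + 1 - max 0 t.2.2) LL_n
    (by intro t; split_ifs with h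
        · exact le_rfl
        · exact bn_nonneg (Nat.pos_of_ne_zero h))
    (by intro t; split_ifs with h
        · norm_num
        · exact bn_le (Nat.pos_of_ne_zero h))
    (by intro t; split_ifs with h
        · exact le_rfl
        · exact cn_nonneg (Nat.pos_of_ne_zero h))
    (by intro t; split_ifs with h
        · norm_num
        · exact cn_le (Nat.pos_of_ne_zero h))
    LL_s ?_ ?_ a
  · refine key.congr' ?_
    filter_upwards [LL_n.eventually_gt_atTop 0] with t ht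
    have hn : 0 < t.1 := ht
    have h0 : t.1 ≠ 0 := by omega
    simp only [h0, if_false, Gs]
    congr 1
    apply sum_congr rfl
    intro x hx
    have hx' := mem_range.1 hx
    rw [PP_theta_zero t.1 x (by omega) hn]
    simp
  · intro t x hx
    split_ifs at hx ⊢ with h
    · omega
    · have hn : 0 < t.1 := Nat.pos_of_ne_zero h
      have hn' : (0:ℝ) < t.1 := by exact_mod_cast hn
      rw [← mul_add, div_mul_eq_mul_div, div_le_iff₀ hn']
      have h2 : t.2.2 + x ≤ KK t.1 := by omega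
      have h3 : ((t.2.2:ℝ) + x) ≤ KK t.1 := by exact_mod_cast h2
      rw [KK_real] at h3
      have h4 := bn_nonneg hn
      have h5 := cn_nonneg hn
      nlinarith
  · filter_upwards [LL_n.eventually_gt_atTop 100,
      LL_s.eventually (gt_mem_nhds (show Real.pi/4 < 3*Real.pi/8 by linarith))] with t h1 h3
    have hn : 0 < t.1 := by omega
    have h5 := small_index hn h3
    have h0 : t.1 ≠ 0 := by omega
    simp only [h0, if_false]
    unfold KK
    omega

/-- the multiplier at an end -/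
noncomputable def m1 (n : ℕ) (a : ℤ) : ℂ := lk n (KK n) ^ a * (2 * c1 a) * (Real.sqrt n : ℂ)

theorem norm_m1 (n : ℕ) (a : ℤ) : ‖m1 n a‖ = 2 * ‖c1 a‖ * Real.sqrt n := by
  unfold m1
  rw [norm_mul, norm_mul, norm_lk_zpow, one_mul, norm_mul, Complex.norm_real,
    Real.norm_of_nonneg (Real.sqrt_nonneg _)]
  norm_num

/-- the first row in a window around the centre -/
theorem FF_window1 (a : ℤ) {ε : ℝ} (hε : 0 < ε) : ∃ η > 0, ∀ᶠ n : ℕ in atTop, ∀ s : ℕ,
    |Real.pi / n * s - Real.pi/4| < η →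
    ‖FF n a 0 s - m1 n a * ((vk n (KK n) s : ℝ) : ℂ)‖ ≤ ε * ‖m1 n a‖ * vk n (KK n) s := by
  have hp := Real.pi_pos
  have hcp : 0 < 2 * ‖c1 a‖ := by
    have := norm_pos_iff.2 (c1_ne a)
    positivity
  have hmain : ∃ η > 0, ∀ᶠ n : ℕ in atTop, ∀ r s : ℕ, |Real.pi / n * r - Real.pi/4| < η →
      |Real.pi / n * s - Real.pi/4| < η →
      ‖FF n a 0 s - m1 n a * ((vk n (KK n) s : ℝ) : ℂ)‖ ≤ ε * ‖m1 n a‖ * vk n (KK n) s := by
    apply LL_extract (p := fun t => ‖FF t.1 a 0 t.2.2 - m1 t.1 a * ((vk t.1 (KK t.1) t.2.2 : ℝ) : ℂ)‖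
      ≤ ε * ‖m1 t.1 a‖ * vk t.1 (KK t.1) t.2.2)
    have hlim : Tendsto (fun t : ℕ × ℕ × ℕ => ((Real.sqrt t.1 : ℝ) : ℂ)⁻¹ *
        (2 * Gs t.1 a 0 t.2.2 - (1 - cn t.1 : ℝ))) LL (𝓝 (2 * c1 a)) := by
      have h1 := (Gs1_limit a).const_mul 2
      have h2 : Tendsto (fun t : ℕ × ℕ × ℕ => (((Real.sqrt t.1)⁻¹ * (1 - cn t.1) : ℝ) : ℂ)) LL (𝓝 0) := by
        rw [← Complex.ofReal_zero]
        apply (Complex.continuous_ofReal.tendsto _).comp
        have h3 : Tendsto (fun t : ℕ × ℕ × ℕ => (Real.sqrt t.1)⁻¹) LL (𝓝 0) :=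
          tendsto_inv_atTop_zero.comp (sqrt_tendsto LL_n)
        apply squeeze_zero' _ _ h3
        · filter_upwards [LL_n.eventually_gt_atTop 0] with t ht
          exact mul_nonneg (by positivity) (by linarith [cn_le ht])
        · filter_upwards [LL_n.eventually_gt_atTop 0] with t ht
          have : 0 ≤ (Real.sqrt t.1)⁻¹ := by positivity
          nlinarith [cn_nonneg ht]
      have h4 := h1.sub h2
      rw [sub_zero] at h4
      refine h4.congr ?_
      intro t
      push_cast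
      ring
    have hev : ∀ᶠ t : ℕ × ℕ × ℕ in LL, ‖((Real.sqrt t.1 : ℝ) : ℂ)⁻¹ *
        (2 * Gs t.1 a 0 t.2.2 - (1 - cn t.1 : ℝ)) - 2 * c1 a‖ < ε * (2 * ‖c1 a‖) := by
      have := hlim.eventually (Metric.ball_mem_nhds _ (show 0 < ε * (2 * ‖c1 a‖) by positivity))
      filter_upwards [this] with t ht
      rwa [dist_eq_norm] at ht
    filter_upwards [hev, LL_n.eventually_gt_atTop 100,
        LL_s.eventually (gt_mem_nhds (show Real.pi/4 < 3*Real.pi/8 by linarith))] with t h0 h1 h3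
    have hn : 0 < t.1 := by omega
    have h5 := small_index hn h3
    have hs : t.2.2 ≤ KK t.1 := by unfold KK; omega
    have hsq : 0 < Real.sqrt t.1 := Real.sqrt_pos.2 (by exact_mod_cast hn)
    have hsq' : ((Real.sqrt t.1 : ℝ) : ℂ) ≠ 0 := by exact_mod_cast hsq.ne'
    have hv : 0 ≤ vk t.1 (KK t.1) t.2.2 := vk_nonneg (by unfold KK; omega)
    rw [FF_fold hn a (Nat.zero_le _) hs, vk_zero, one_mul, norm_m1]
    unfold m1
    have e : lk t.1 (KK t.1) ^ a * ((vk t.1 (KK t.1) t.2.2 : ℝ) : ℂ)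
        * (2 * Gs t.1 a 0 t.2.2 - (1 - cn t.1 : ℝ)) - lk t.1 (KK t.1) ^ a * (2 * c1 a)
        * (Real.sqrt t.1 : ℂ) * ((vk t.1 (KK t.1) t.2.2 : ℝ) : ℂ)
        = lk t.1 (KK t.1) ^ a * ((vk t.1 (KK t.1) t.2.2 : ℝ) : ℂ) *
          ((Real.sqrt t.1 : ℝ) : ℂ) * (((Real.sqrt t.1 : ℝ) : ℂ)⁻¹ *
        (2 * Gs t.1 a 0 t.2.2 - (1 - cn t.1 : ℝ)) - 2 * c1 a) := by
      field_simp
    rw [e, norm_mul, norm_mul, norm_mul, norm_lk_zpow, one_mul, Complex.norm_real, Complex.norm_real,
      Real.norm_of_nonneg hv, Real.norm_of_nonneg hsq.le]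
    calc vk t.1 (KK t.1) t.2.2 * Real.sqrt t.1 * _
        ≤ vk t.1 (KK t.1) t.2.2 * Real.sqrt t.1 * (ε * (2 * ‖c1 a‖)) := by
          apply mul_le_mul_of_nonneg_left h0.le
          positivity
      _ = _ := by ring
  obtain ⟨η, hη, H⟩ := hmain
  refine ⟨η, hη, ?_⟩
  filter_upwards [H] with n h s hs
  exact h s s hs hs

theorem FF_symm (n : ℕ) (a : ℤ) (r s : ℕ) : FF n a r s = FF n a s r := by
  unfold FF
  apply sum_congr rfl
  intro k _
  rw [mul_comm (vk n k r)]

theorem sh_zero {n : ℕ} (f : ℕ → ℝ) (t : Fin n) : sh f 0 t = f t := by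
  have h5 := t.2
  unfold sh
  rw [if_pos]
  · simp
  · constructor
    · simp
    · simp only [sub_zero]
      exact_mod_cast h5

theorem GG_zero (n : ℕ) (a : ℤ) (r s : Fin n) : GG n 0 a r s = FF n a r s := by
  have h5 := s.2
  unfold GG
  rw [if_pos]
  · simp
  · constructor
    · simp
    · simp only [sub_zero]
      exact_mod_cast h5

/-- general comparison: matrices dominated by multiples of `v vᵀ` and asymptotic to a multiple of it
in the window -/
theorem hetero_compare {α : Type*} {W : List α} (hW : W ≠ []) {η ε : ℝ} (hε : 0 < ε) {n : ℕ}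
    (hn : 0 < n) (A : α → Matrix (Fin n) (Fin n) ℂ) (C : α → ℝ) (m : α → ℂ)
    (hC : ∀ a ∈ W, ∀ r s : Fin n, ‖A a r s‖ ≤ C a * (vk n (KK n) r * vk n (KK n) s))
    (hC0 : ∀ a ∈ W, 0 ≤ C a)
    (H : ∀ a ∈ W, ∀ r s : Fin n, |Real.pi / n * ((r:ℕ):ℝ) - Real.pi/4| < η →
      |Real.pi / n * ((s:ℕ):ℝ) - Real.pi/4| < η →
    ‖A a r s - m a * ((vk n (KK n) r * vk n (KK n) s : ℝ) : ℂ)‖
      ≤ ε * ‖m a‖ * (vk n (KK n) r * vk n (KK n) s)) :
    ‖((W.map A).prod).trace - (W.map m).prod * ((Tw η n 0 : ℝ) : ℂ) ^ W.length‖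
      ≤ (W.map C).prod * (Tv n 0 ^ W.length - Tw η n 0 ^ W.length)
        + (((1 + ε) ^ W.length - 1) * (W.map (fun a => ‖m a‖)).prod * Tw η n 0 ^ W.length) := by
  classical
  set A' : α → Matrix (Fin n) (Fin n) ℂ := fun a r s =>
    if |Real.pi / n * ((r:ℕ):ℝ) - Real.pi/4| < η ∧ |Real.pi / n * ((s:ℕ):ℝ) - Real.pi/4| < η
      then A a r s else 0 with hA'
  have hw0 : ∀ t : ℕ, 0 ≤ wv η n t := fun t => wv_nonneg hn t
  have g1 : ∀ a ∈ W, Dom (A' a) (C a • Matrix.vecMulVec (fun r : Fin n => wv η n r)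
      (fun r : Fin n => wv η n r)) := by
    intro a ha r s
    rw [Matrix.smul_apply, Matrix.vecMulVec_apply, smul_eq_mul]
    simp only [hA']
    split_ifs with h
    · refine (hC a ha r s).trans (le_of_eq ?_)
      unfold wv
      rw [if_pos h.1, if_pos h.2]
    · rw [norm_zero]
      exact mul_nonneg (hC0 a ha) (mul_nonneg (hw0 _) (hw0 _))
  have g2 : ∀ a ∈ W, Dom (A a - A' a) (C a • Matrix.vecMulVec (fun r : Fin n => vk n (KK n) r)
      (fun r : Fin n => vk n (KK n) r) - C a • Matrix.vecMulVec (fun r : Fin n => wv η n r)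
      (fun r : Fin n => wv η n r)) := by
    intro a ha r s
    rw [Matrix.sub_apply, Matrix.sub_apply, Matrix.smul_apply, Matrix.smul_apply,
      Matrix.vecMulVec_apply, Matrix.vecMulVec_apply, smul_eq_mul, smul_eq_mul]
    simp only [hA']
    by_cases hr : |Real.pi / n * ((r:ℕ):ℝ) - Real.pi/4| < η
    · by_cases hs : |Real.pi / n * ((s:ℕ):ℝ) - Real.pi/4| < η
      · rw [if_pos ⟨hr, hs⟩, sub_self, norm_zero]
        unfold wv
        rw [if_pos hr, if_pos hs, sub_self]
      · rw [if_neg (fun h => hs h.2), sub_zero]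
        have : wv η n s = 0 := by unfold wv; rw [if_neg hs]
        rw [this, mul_zero, mul_zero, sub_zero]
        exact hC a ha r s
    · rw [if_neg (fun h => hr h.1), sub_zero]
      have : wv η n r = 0 := by unfold wv; rw [if_neg hr]
      rw [this, zero_mul, mul_zero, sub_zero]
      exact hC a ha r s
  have g3 : ∀ a ∈ W, Dom (m a • Matrix.vecMulVec (fun r : Fin n => ((wv η n r : ℝ) : ℂ))
        (fun s : Fin n => ((wv η n s : ℝ) : ℂ)))
      (‖m a‖ • Matrix.vecMulVec (fun r : Fin n => wv η n r) (fun r : Fin n => wv η n r)) := by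
    intro a ha r s
    rw [Matrix.smul_apply, Matrix.vecMulVec_apply, Matrix.smul_apply, Matrix.vecMulVec_apply,
      smul_eq_mul, smul_eq_mul, norm_mul, norm_mul, Complex.norm_real, Complex.norm_real,
      Real.norm_of_nonneg (hw0 _), Real.norm_of_nonneg (hw0 _)]
  have g4 : ∀ a ∈ W, Dom (A' a - m a • Matrix.vecMulVec (fun r : Fin n => ((wv η n r : ℝ) : ℂ))
        (fun s : Fin n => ((wv η n s : ℝ) : ℂ)))
      (((1 + ε) * ‖m a‖) • Matrix.vecMulVec (fun r : Fin n => wv η n r) (fun r : Fin n => wv η n r)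
        - ‖m a‖ • Matrix.vecMulVec (fun r : Fin n => wv η n r) (fun r : Fin n => wv η n r)) := by
    intro a ha r s
    rw [Matrix.sub_apply, Matrix.sub_apply, Matrix.smul_apply, Matrix.smul_apply, Matrix.smul_apply,
      Matrix.vecMulVec_apply, Matrix.vecMulVec_apply, smul_eq_mul, smul_eq_mul, smul_eq_mul]
    have e : (1 + ε) * ‖m a‖ * (wv η n r * wv η n s) - ‖m a‖ * (wv η n r * wv η n s)
        = ε * ‖m a‖ * (wv η n r * wv η n s) := by ring
    rw [e]
    simp only [hA']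
    by_cases hr : |Real.pi / n * ((r:ℕ):ℝ) - Real.pi/4| < η
    · by_cases hs : |Real.pi / n * ((s:ℕ):ℝ) - Real.pi/4| < η
      · rw [if_pos ⟨hr, hs⟩]
        have := H a ha r s hr hs
        unfold wv
        rw [if_pos hr, if_pos hs, ← Complex.ofReal_mul]
        exact this
      · rw [if_neg (fun h => hs h.2)]
        have : wv η n s = 0 := by unfold wv; rw [if_neg hs]
        rw [this]; simp
    · rw [if_neg (fun h => hr h.1)]
      have : wv η n r = 0 := by unfold wv; rw [if_neg hr]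
      rw [this]; simp
  have d1 := (dom_prod W A A' _ _ g1 g2).2.2.trace
  have d2 := (dom_prod W A' _ _ _ g3 g4).2.2.trace
  rw [Matrix.trace_sub, Matrix.trace_sub, rank_one_trace hW C, rank_one_trace hW C] at d1
  rw [Matrix.trace_sub, Matrix.trace_sub, rank_one_trace hW m,
    rank_one_trace hW (fun a => (1 + ε) * ‖m a‖), rank_one_trace hW (fun a => ‖m a‖)] at d2
  have e0 : Tw η n 0 = ∑ t : Fin n, wv η n t * wv η n t := by
    unfold Tw
    apply sum_congr rfl
    intro t _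
    rw [sh_zero]
  have e0' : Tv n 0 = ∑ t : Fin n, vk n (KK n) t * vk n (KK n) t := by
    unfold Tv
    apply sum_congr rfl
    intro t _
    rw [sh_zero]
  have e2 : (W.map (fun a => (1 + ε) * ‖m a‖)).prod
      = (1 + ε) ^ W.length * (W.map (fun a => ‖m a‖)).prod := by
    rw [List.prod_map_mul, List.map_const', List.prod_replicate]
  have e3 : ∑ t : Fin n, ((wv η n t : ℝ) : ℂ) * ((wv η n t : ℝ) : ℂ) = ((Tw η n 0 : ℝ) : ℂ) := by
    rw [e0]; push_cast; rfl
  rw [← e0, ← e0'] at d1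
  rw [e2, e3, ← e0] at d2
  have e4 : ((W.map A).prod).trace - (W.map m).prod * ((Tw η n 0 : ℝ) : ℂ) ^ W.length
      = (((W.map A).prod).trace - ((W.map A').prod).trace)
        + (((W.map A').prod).trace - (W.map m).prod * ((Tw η n 0 : ℝ) : ℂ) ^ W.length) := by
    ring
  rw [e4]
  refine (norm_add_le _ _).trans (add_le_add ?_ ?_)
  · refine d1.trans (le_of_eq ?_)
    ring
  · refine d2.trans (le_of_eq ?_)
    ring

end Pool.Agent.Helper42.T1
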