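import Pool.Agent.Helper42.T1.VK

/-! # Size of the vectors `v_k` -/

set_option linter.unusedSimpArgs false
set_option linter.unusedVariables false

namespace Pool.Agent.Helper42.T1
open Finset Filter Topology Pool.Agent.Helper39.VC Pool.Agent.Helper39.AB Pool.Agent.Helper5.TV

theorem vk_le_exp {n k i : ℕ} (hk : k < n) {c : ℝ}
    (hc : i ≤ k → k + i < n → 2 * lob (i * hh n) + lob (k * hh n - i * hh n)
      - lob (k * hh n + i * hh n) ≤ c) :
    vk n k i ≤ Real.exp (n * (c / Real.pi)) := by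
  rcases le_or_gt i k with h | h
  · rcases lt_or_ge (k + i) n with h2 | h2
    · have hc' := hc h h2
      have hp := Real.pi_pos
      rw [vk_eq_bb h h2]
      obtain ⟨y, rfl⟩ : ∃ y, k = i + y := ⟨k - i, by omega⟩
      have h1 : bb n (i + (i + y)) i ≤ Real.exp (n * ((lob (i * hh n)
          + lob (((i+y:ℕ):ℝ) * hh n) - lob (i * hh n + ((i+y:ℕ):ℝ) * hh n)) / Real.pi)) :=
        bb_le_exp (by omega) le_rfl
      have h3 : bb n (i + y) i ≤ Real.exp (n * ((lob (i * hh n)
          + lob (y * hh n) - lob (i * hh n + y * hh n)) / Real.pi)) := bb_le_exp (by omega) le_rfl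
      have e : i + y + i = i + (i + y) := by ring
      rw [e]
      refine (mul_le_mul h1 h3 (bb_nonneg (by omega)) (Real.exp_pos _).le).trans ?_
      rw [← Real.exp_add]
      apply Real.exp_le_exp.2
      have e2 : (((i+y:ℕ):ℝ)) * hh n - i * hh n = y * hh n := by push_cast; ring
      have e3 : (((i+y:ℕ):ℝ)) * hh n = i * hh n + y * hh n := by push_cast; ring
      have e4 : (((i+y:ℕ):ℝ)) * hh n + i * hh n = i * hh n + (((i+y:ℕ):ℝ)) * hh n := by ring
      rw [e2, e4] at hc'
      rw [← mul_add, ← add_div]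
      apply mul_le_mul_of_nonneg_left _ (Nat.cast_nonneg n)
      apply div_le_div_of_nonneg_right _ hp.le
      rw [e3] at hc' ⊢
      linarith
    · rw [vk_eq_zero_right hk h2]; exact (Real.exp_pos _).le
  · rw [vk_eq_zero_left h]; exact (Real.exp_pos _).le

/-- the profile -/
noncomputable def Th (y : ℝ) : ℝ := 2 * lob y + 2 * lob (Real.pi/2 - y)

theorem profile_le {x y : ℝ} (h0 : 0 ≤ y) (h1 : y ≤ x) (h2 : x + y ≤ Real.pi) :
    2 * lob y + lob (x - y) - lob (x + y) ≤ Th y := by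
  have h := lob_pair (x := x - y) (y := Real.pi - (x + y)) (by linarith) (by linarith) (by linarith)
  rw [lob_pi_sub] at h
  have e : (x - y + (Real.pi - (x + y)))/2 = Real.pi/2 - y := by ring
  rw [e] at h
  unfold Th
  linarith

theorem Th_symm (y : ℝ) : Th (Real.pi/2 - y) = Th y := by
  unfold Th
  have : Real.pi/2 - (Real.pi/2 - y) = y := by ring
  rw [this]; ring

theorem Th_lt {a b : ℝ} (h0 : 0 ≤ a) (hab : a < b) (hb : b ≤ Real.pi/4) : Th a < Th b := by
  have hp := Real.pi_pos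
  have h1 : ∫ t in a..b, ls (Real.pi/2 - t) = lob (Real.pi/2 - b) - lob (Real.pi/2 - a) := by
    rw [intervalIntegral.integral_comp_sub_left (fun u => ls u), integral_ls]
  have h2 : ∫ t in a..b, ls t = lob a - lob b := integral_ls a b
  have h3 : 0 < ∫ t in a..b, (ls (Real.pi/2 - t) - ls t) := by
    apply intervalIntegral.intervalIntegral_pos_of_pos_on _ _ hab
    · exact (ls_refl_int _ _ _).sub (ls_int _ _)
    · intro t ht
      obtain ⟨ht0, ht1⟩ := ht
      unfold ls
      rw [Real.sin_pi_div_two_sub, sub_pos]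
      apply Real.log_lt_log
      · have := Real.sin_pos_of_pos_of_lt_pi (x := t) (by linarith) (by linarith)
        linarith
      · have : Real.sin t < Real.cos t := by
          rw [← Real.sin_pi_div_two_sub]
          apply Real.sin_lt_sin_of_lt_of_le_pi_div_two <;> linarith
        linarith
  rw [intervalIntegral.integral_sub (ls_refl_int _ _ _) (ls_int _ _), h1, h2] at h3
  unfold Th
  linarith

theorem Th_le_max {y : ℝ} (h0 : 0 ≤ y) (h1 : y ≤ Real.pi/2) : Th y ≤ Th (Real.pi/4) := by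
  rcases lt_trichotomy y (Real.pi/4) with h | h | h
  · exact (Th_lt h0 h le_rfl).le
  · rw [h]
  · rw [← Th_symm y]
    exact (Th_lt (by linarith) (by linarith) le_rfl).le

theorem Th_max : Th (Real.pi/4) = 4 * lob (Real.pi/4) := by
  unfold Th
  have : Real.pi/2 - Real.pi/4 = Real.pi/4 := by ring
  rw [this]; ring

/-- outside of a window around `π/4` there is a gap -/
theorem Th_gap {η : ℝ} (hη : 0 < η) : ∃ c < 4 * lob (Real.pi/4), ∀ y, 0 ≤ y → y ≤ Real.pi/2 →
    η ≤ |y - Real.pi/4| → Th y ≤ c := by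
  have hp := Real.pi_pos
  set η' := min η (Real.pi/8) with hη'
  have h0 : 0 < η' := lt_min hη (by linarith)
  have h1 : η' ≤ Real.pi/8 := min_le_right _ _
  refine ⟨Th (Real.pi/4 - η'), ?_, ?_⟩
  · rw [← Th_max]
    exact Th_lt (by linarith) (by linarith) le_rfl
  · intro y hy0 hy1 hy
    have hy' : η' ≤ |y - Real.pi/4| := (min_le_left _ _).trans hy
    rcases le_abs.1 hy' with h | h
    · rw [← Th_symm y]
      rcases eq_or_lt_of_le (show Real.pi/2 - y ≤ Real.pi/4 - η' by linarith) with h2 | h2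
      · rw [h2]
      · exact (Th_lt (by linarith) h2 (by linarith)).le
    · rcases eq_or_lt_of_le (show y ≤ Real.pi/4 - η' by linarith) with h2 | h2
      · rw [h2]
      · exact (Th_lt hy0 h2 (by linarith)).le

/-- the growth exponent of the vectors -/
noncomputable def kap : ℝ := 4 * lob (Real.pi/4) / Real.pi

theorem angle_bounds {n k i : ℕ} (h1 : i ≤ k) (h2 : k + i < n) :
    0 ≤ (i:ℝ) * hh n ∧ (i:ℝ) * hh n ≤ k * hh n ∧ k * hh n + i * hh n ≤ Real.pi := by
  have hn : 0 < n := by omega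
  have hpos := hh_pos hn
  refine ⟨by positivity, ?_, ?_⟩
  · apply mul_le_mul_of_nonneg_right _ hpos.le
    exact_mod_cast h1
  · rw [← add_mul]
    exact_mod_cast (sum_hh_lt h2).le

theorem vk_upper {n k i : ℕ} (hk : k < n) : vk n k i ≤ Real.exp (n * kap) := by
  apply vk_le_exp hk
  intro h1 h2
  obtain ⟨a1, a2, a3⟩ := angle_bounds h1 h2
  refine (profile_le a1 a2 a3).trans ?_
  rw [← Th_max]
  exact Th_le_max a1 (by linarith)

/-- outside of a window the vectors are exponentially smaller -/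
theorem vk_gap {η : ℝ} (hη : 0 < η) : ∃ c < kap, ∀ n k i : ℕ, k < n →
    η ≤ |Real.pi / n * i - Real.pi/4| → vk n k i ≤ Real.exp (n * c) := by
  obtain ⟨c, hc, H⟩ := Th_gap hη
  have hp := Real.pi_pos
  refine ⟨c / Real.pi, ?_, ?_⟩
  · unfold kap
    exact div_lt_div_of_pos_right hc hp
  · intro n k i hk hi
    apply vk_le_exp hk
    intro h1 h2
    obtain ⟨a1, a2, a3⟩ := angle_bounds h1 h2
    refine (profile_le a1 a2 a3).trans ?_
    apply H _ a1 (by linarith)
    have : (i:ℝ) * hh n = Real.pi / n * i := by unfold hh; ring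
    rwa [this]

theorem KK_limit : Tendsto (fun n : ℕ => (KK n : ℝ) * hh n) atTop (𝓝 (Real.pi/2)) := by
  have h1 := (div_limit 2 (by norm_num)).sub hh_limit
  have h2 := div_limit 2 (by norm_num)
  rw [sub_zero] at h1
  apply tendsto_of_tendsto_of_tendsto_of_le_of_le' h1 h2
  · filter_upwards [eventually_gt_atTop 0] with n hn
    have : ((n/2:ℕ):ℝ) ≤ KK n + 1 := by
      have : n/2 ≤ KK n + 1 := by unfold KK; omega
      exact_mod_cast this
    have hpos := hh_pos hn
    nlinarith
  · filter_upwards [eventually_gt_atTop 0] with n hn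
    have : (KK n : ℝ) ≤ ((n/2:ℕ):ℝ) := by
      have : KK n ≤ n/2 := by unfold KK; omega
      exact_mod_cast this
    have hpos := hh_pos hn
    exact mul_le_mul_of_nonneg_right this hpos.le

theorem vk_lower {ε : ℝ} (hε : 0 < ε) : ∀ᶠ n : ℕ in atTop,
    Real.exp (n * (kap - ε)) ≤ vk n (KK n) (n/4) := by
  have hp := Real.pi_pos
  have l1 := div_limit 4 (by norm_num)
  have l2 := hh_limit
  have l3 := KK_limit
  have c := lob_continuous
  have t1 := (c.tendsto _).comp (l1.add l2)
  have t2 := (c.tendsto _).comp (l2.add l3)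
  have t3 := (c.tendsto _).comp ((l1.add l2).add l3)
  have t4 := (c.tendsto _).comp l2
  have t5 := (c.tendsto _).comp (l2.add (l3.sub l1))
  have t6 := (c.tendsto _).comp ((l1.add l2).add (l3.sub l1))
  have t7 := ((((t1.add t2).sub t3).sub t4)).add (((t1.add t5).sub t6).sub t4)
  have e : ((lob (Real.pi/(4:ℕ) + 0) + lob (0 + Real.pi/2) - lob (Real.pi/(4:ℕ) + 0 + Real.pi/2) - lob 0)
    + (lob (Real.pi/(4:ℕ) + 0) + lob (0 + (Real.pi/2 - Real.pi/(4:ℕ)))
      - lob (Real.pi/(4:ℕ) + 0 + (Real.pi/2 - Real.pi/(4:ℕ))) - lob 0)) = 4 * lob (Real.pi/4) := by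
    push_cast
    have e1 : Real.pi/4 + 0 + Real.pi/2 = Real.pi - Real.pi/4 := by ring
    have e2 : 0 + (Real.pi/2 - Real.pi/4) = Real.pi/4 := by ring
    have e3 : Real.pi/4 + 0 + (Real.pi/2 - Real.pi/4) = Real.pi/2 := by ring
    rw [e1, lob_pi_sub, e2, e3, lob_zero, zero_add, add_zero, lob_pi_div_two]
    ring
  rw [e] at t7
  have l4 := t7.eventually_const_le (show 4 * lob (Real.pi/4) - ε * Real.pi
    < 4 * lob (Real.pi/4) by nlinarith)
  filter_upwards [l4, eventually_gt_atTop 20] with n h1 h2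
  have hn' : (0:ℝ) < n := by exact_mod_cast (by omega : 0 < n)
  have hK1 : n/4 ≤ KK n := by unfold KK; omega
  have hK2 : KK n + n/4 + 1 < n := by unfold KK; omega
  have p1 : 0 < bb n (KK n + n/4) (n/4) := bb_pos (by omega) (by omega)
  have p2 : 0 < bb n (KK n) (n/4) := bb_pos (by omega) (by omega)
  rw [vk_eq_bb hK1 (by omega), ← Real.le_log_iff_exp_le (mul_pos p1 p2),
    Real.log_mul p1.ne' p2.ne']
  have h3 := log_bb_ge (n := n) (x := n/4) (y := KK n) (by omega)
  have h4 := log_bb_ge (n := n) (x := n/4) (y := KK n - n/4) (by omega)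
  have e5 : n/4 + (KK n - n/4) = KK n := by omega
  have e6 : n/4 + KK n = KK n + n/4 := by ring
  have e7 : ((KK n - n/4 : ℕ):ℝ) = (KK n : ℝ) - ((n/4:ℕ):ℝ) := by
    rw [Nat.cast_sub hK1]
  rw [e6] at h3
  rw [e5, e7, sub_mul] at h4
  unfold kap
  calc (n:ℝ) * (4 * lob (Real.pi/4) / Real.pi - ε)
      = (n / Real.pi) * (4 * lob (Real.pi/4) - ε * Real.pi) := by field_simp
    _ ≤ (n / Real.pi) * _ := mul_le_mul_of_nonneg_left h1 (by positivity)
    _ = (n / Real.pi) * (lob (((n/4:ℕ):ℝ) * hh n + hh n) + lob (hh n + (KK n : ℝ) * hh n)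
        - lob (((n/4:ℕ):ℝ) * hh n + hh n + (KK n : ℝ) * hh n) - lob (hh n))
      + (n / Real.pi) * (lob (((n/4:ℕ):ℝ) * hh n + hh n)
        + lob (hh n + ((KK n : ℝ) * hh n - ((n/4:ℕ):ℝ) * hh n))
        - lob (((n/4:ℕ):ℝ) * hh n + hh n + ((KK n : ℝ) * hh n - ((n/4:ℕ):ℝ) * hh n)) - lob (hh n)) := by
        rw [← mul_add]
        rfl
    _ ≤ _ := add_le_add h3 h4

end Pool.Agent.Helper42.T1
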