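import Pool.Agent.Helper39.AB.Defs
import Pool.Agent.Helper39.VC.Asy2
import Pool.Agent.Helper42.T1.GLim2

/-! # The vectors `v_k` -/

set_option linter.unusedSimpArgs false
set_option linter.unusedVariables false

namespace Pool.Agent.Helper42.T1
open Finset Filter Topology Pool.Agent.Helper39.VC Pool.Agent.Helper39.AB Pool.Agent.Helper5.TV

theorem vk_zero (n k : ℕ) : vk n k 0 = 1 := by simp [vk]

theorem vk_succ (n k i : ℕ) : vk n k (i+1)
    = vk n k i * (sn n ((k:ℤ) + i + 1) * sn n ((k:ℤ) - i) / sn n ((i:ℤ) + 1) ^ 2) := by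
  rw [vk, prod_range_succ, vk]

theorem sn_zero (n : ℕ) : sn n 0 = 0 := by simp [sn]

theorem sn_self {n : ℕ} (hn : 0 < n) : sn n n = 0 := by
  have := sn_n_sub hn 0
  rw [sub_zero, sn_zero] at this
  exact this

theorem vk_rec (n k i : ℕ) : vk n k i * sn n ((k:ℤ) + 1 + i) = vk n (k+1) i * sn n ((k:ℤ) + 1 - i) := by
  induction i with
  | zero => simp [vk_zero]
  | succ i ih =>
    rw [vk_succ, vk_succ]
    push_cast
    have e1 : (k:ℤ) + 1 + (i + 1) = (k:ℤ) + 1 + i + 1 := by ring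
    have e2 : (k:ℤ) + 1 - (i + 1) = (k:ℤ) - i := by ring
    have e3 : (k:ℤ) + i + 1 = (k:ℤ) + 1 + i := by ring
    rw [e1, e2, e3]
    calc vk n k i * (sn n ((k:ℤ) + 1 + i) * sn n ((k:ℤ) - i) / sn n ((i:ℤ) + 1) ^ 2)
          * sn n ((k:ℤ) + 1 + i + 1)
        = (vk n k i * sn n ((k:ℤ) + 1 + i)) * (sn n ((k:ℤ) - i) / sn n ((i:ℤ) + 1) ^ 2)
          * sn n ((k:ℤ) + 1 + i + 1) := by ring
      _ = _ := by rw [ih]; ring

theorem vk_eq_zero_left {n k i : ℕ} (h : k < i) : vk n k i = 0 := by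
  unfold vk
  apply prod_eq_zero (mem_range.2 h)
  rw [sub_self, sn_zero]; simp

theorem vk_eq_zero_right {n k i : ℕ} (hk : k < n) (h : n ≤ k + i) : vk n k i = 0 := by
  unfold vk
  apply prod_eq_zero (i := n - 1 - k) (mem_range.2 (by omega))
  have : (k:ℤ) + ((n - 1 - k : ℕ) : ℤ) + 1 = n := by omega
  rw [this, sn_self (by omega)]; simp

theorem vk_pos {n k i : ℕ} (h : i ≤ k) (h2 : k + i < n) : 0 < vk n k i := by
  unfold vk
  apply prod_pos
  intro l hl
  have hl' := mem_range.1 hl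
  apply div_pos (mul_pos (sn_pos (by omega) (by omega)) (sn_pos (by omega) (by omega)))
  exact pow_pos (sn_pos (by omega) (by omega)) 2

theorem vk_nonneg {n k i : ℕ} (hk : k < n) : 0 ≤ vk n k i := by
  rcases le_or_gt i k with h | h
  · rcases lt_or_ge (k + i) n with h2 | h2
    · exact (vk_pos h h2).le
    · rw [vk_eq_zero_right hk h2]
  · rw [vk_eq_zero_left h]

theorem vk_refl {n k : ℕ} (hk : k < n) (i : ℕ) : vk n (n-1-k) i = vk n k i := by
  unfold vk
  apply prod_congr rfl
  intro l _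
  have e1 : ((n-1-k:ℕ):ℤ) + l + 1 = (n:ℤ) - ((k:ℤ) - l) := by omega
  have e2 : ((n-1-k:ℕ):ℤ) - l = (n:ℤ) - ((k:ℤ) + l + 1) := by omega
  rw [e1, e2, sn_n_sub (by omega), sn_n_sub (by omega), mul_comm (sn n ((k:ℤ) - l))]

theorem vk_eq_bb {n k i : ℕ} (h : i ≤ k) (h2 : k + i < n) :
    vk n k i = bb n (k+i) i * bb n k i := by
  induction i with
  | zero => rw [vk_zero, bb_zero_right (by omega), bb_zero_right (by omega), mul_one]
  | succ i ih =>
    rw [vk_succ, ih (by omega) (by omega)]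
    rw [bb, if_pos (by omega), bb, if_pos (by omega), bb, if_pos (by omega), bb, if_pos (by omega)]
    have e1 : k + i - i = k := by omega
    have e2 : k + (i+1) - (i+1) = k := by omega
    have e3 : k + (i+1) = (k+i)+1 := by ring
    have e4 : k - i = (k - (i+1)) + 1 := by omega
    rw [e1, e2, e3, sf_succ, sf_succ]
    have e5 : sf n (k - i) = sf n (k - (i+1)) * sn n ((k:ℤ) - i) := by
      conv_lhs => rw [e4, sf_succ]
      congr 2
      omega
    rw [e5]
    have p1 := (sf_pos (n := n) (a := k - (i+1)) (by omega)).ne'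
    have p2 := (sn_pos (n := n) (x := (k:ℤ) - i) (by omega) (by omega)).ne'
    have p3 := (sn_pos (n := n) (x := (i:ℤ) + 1) (by omega) (by omega)).ne'
    have p4 := (sf_pos (n := n) (a := i) (by omega)).ne'
    have p5 := (sf_pos (n := n) (a := k) (by omega)).ne'
    have e6 : (((k + i : ℕ)):ℤ) + 1 = (k:ℤ) + i + 1 := by push_cast; ring
    rw [e6]
    field_simp

/-- the central index -/
def KK (n : ℕ) : ℕ := (n - 1) / 2

/-- the parity constant -/
noncomputable def cn (n : ℕ) : ℝ := (n:ℝ) - 1 - 2 * KK n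

/-- the shift -/
noncomputable def bn (n : ℕ) : ℝ := (1 - cn n) / 2

theorem cn_cases {n : ℕ} (hn : 0 < n) : (n = 2 * KK n + 1 ∧ cn n = 0) ∨ (n = 2 * KK n + 2 ∧ cn n = 1) := by
  unfold cn
  have : n = 2 * KK n + 1 ∨ n = 2 * KK n + 2 := by unfold KK; omega
  rcases this with h | h
  · left
    refine ⟨h, ?_⟩
    have : (n:ℝ) = 2 * KK n + 1 := by exact_mod_cast h
    rw [this]; ring
  · right
    refine ⟨h, ?_⟩
    have : (n:ℝ) = 2 * KK n + 2 := by exact_mod_cast h
    rw [this]; ring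

theorem cn_nonneg {n : ℕ} (hn : 0 < n) : 0 ≤ cn n := by
  rcases cn_cases hn with h | h <;> rw [h.2] <;> norm_num

theorem cn_le {n : ℕ} (hn : 0 < n) : cn n ≤ 1 := by
  rcases cn_cases hn with h | h <;> rw [h.2] <;> norm_num

theorem bn_nonneg {n : ℕ} (hn : 0 < n) : 0 ≤ bn n := by
  unfold bn; linarith [cn_le hn]

theorem bn_le {n : ℕ} (hn : 0 < n) : bn n ≤ 1 := by
  unfold bn; linarith [cn_nonneg hn]

theorem KK_real (n : ℕ) : (KK n : ℝ) = ((n:ℝ) - 1 - cn n) / 2 := by
  unfold cn; ring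

theorem sn_shift {n : ℕ} (hn : 0 < n) (x i : ℕ) :
    sn n ((KK n : ℤ) - x - i) = 2 * Real.cos (Real.pi / n * i + Real.pi / n * ((x:ℝ) + 1 - bn n)) := by
  unfold sn
  have hn' : (n:ℝ) ≠ 0 := by positivity
  congr 1
  rw [← Real.sin_pi_div_two_sub]
  congr 1
  push_cast
  rw [KK_real, bn]
  field_simp
  ring

theorem sn_shift' {n : ℕ} (hn : 0 < n) (x i : ℕ) :
    sn n ((KK n : ℤ) - x + i) = 2 * Real.cos (Real.pi / n * i - Real.pi / n * ((x:ℝ) + 1 - bn n)) := by
  unfold sn
  have hn' : (n:ℝ) ≠ 0 := by positivity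
  congr 1
  rw [← Real.cos_neg, ← Real.sin_pi_div_two_sub]
  congr 1
  push_cast
  rw [KK_real, bn]
  field_simp
  ring

theorem KK_lt {n : ℕ} (hn : 0 < n) : 2 * KK n < n := by unfold KK; omega

theorem vk_PP {n : ℕ} (hn : 0 < n) {i : ℕ} (hi : i ≤ KK n) {x : ℕ} (hx : x ≤ KK n) :
    vk n (KK n - x) i = vk n (KK n) i * PP (Real.pi / n) (bn n) (Real.pi / n * i) x := by
  have hK := KK_lt hn
  induction x with
  | zero => simp [PP]
  | succ x ih =>
    have h1 := vk_rec n (KK n - (x+1)) i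
    have e1 : KK n - (x+1) + 1 = KK n - x := by omega
    have e2 : ((KK n - (x+1) : ℕ) : ℤ) + 1 + i = (KK n : ℤ) - x + i := by omega
    have e3 : ((KK n - (x+1) : ℕ) : ℤ) + 1 - i = (KK n : ℤ) - x - i := by omega
    rw [e1, e2, e3, ih (by omega), sn_shift hn, sn_shift' hn] at h1
    have hp : 0 < sn n ((KK n : ℤ) - x + i) := sn_pos (by omega) (by omega)
    rw [sn_shift' hn] at hp
    rw [PP, prod_range_succ, ← PP, rr]
    set C := Real.cos (Real.pi / n * i - Real.pi / n * ((x:ℝ) + 1 - bn n))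
    set D := Real.cos (Real.pi / n * i + Real.pi / n * ((x:ℝ) + 1 - bn n))
    have hC : C ≠ 0 := by intro h; rw [h] at hp; simp at hp
    have : vk n (KK n - (x+1)) i * C = vk n (KK n) i * PP (Real.pi / n) (bn n) (Real.pi / n * i) x * D := by
      linarith
    rw [show vk n (KK n) i * (PP (Real.pi / n) (bn n) (Real.pi / n * i) x * (D / C))
      = (vk n (KK n) i * PP (Real.pi / n) (bn n) (Real.pi / n * i) x * D) / C by ring]
    exact (eq_div_iff hC).2 this

theorem sn_shift_le {n : ℕ} (hn : 0 < n) {x i : ℕ} (hx : x + 1 ≤ n) (hi : i ≤ n) :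
    sn n ((KK n : ℤ) - x - i) ≤ sn n ((KK n : ℤ) - x + i) := by
  rw [sn_shift hn, sn_shift' hn, Real.cos_add, Real.cos_sub]
  have hn' : (0:ℝ) < n := by exact_mod_cast hn
  have hpi := Real.pi_pos
  have hb0 := bn_nonneg hn
  have hb1 := bn_le hn
  have hx' : (x:ℝ) + 1 ≤ n := by exact_mod_cast hx
  have hi' : (i:ℝ) ≤ n := by exact_mod_cast hi
  have hx0 : (0:ℝ) ≤ x := Nat.cast_nonneg x
  have h1 : 0 ≤ Real.sin (Real.pi / n * i) := by
    apply Real.sin_nonneg_of_nonneg_of_le_pi (by positivity)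
    rw [div_mul_eq_mul_div, div_le_iff₀ hn']
    nlinarith
  have h2 : 0 ≤ Real.sin (Real.pi / n * ((x:ℝ) + 1 - bn n)) := by
    apply Real.sin_nonneg_of_nonneg_of_le_pi
    · apply mul_nonneg (by positivity); linarith
    · rw [div_mul_eq_mul_div, div_le_iff₀ hn']
      nlinarith
  have := mul_nonneg h1 h2
  linarith

theorem vk_le_center {n : ℕ} (hn : 0 < n) {k : ℕ} (hk : k < n) {i : ℕ} :
    vk n k i ≤ vk n (KK n) i := by
  have hK := KK_lt hn
  -- reduce to k ≤ K
  have key : ∀ k, k ≤ KK n → vk n k i ≤ vk n (KK n) i := by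
    intro k hk
    rcases le_or_gt i (KK n) with hi | hi
    · have step : ∀ x, x ≤ KK n → vk n (KK n - x) i ≤ vk n (KK n) i := by
        intro x
        induction x with
        | zero => intro _; simp
        | succ x ih =>
          intro hx
          refine le_trans ?_ (ih (by omega))
          have h1 := vk_rec n (KK n - (x+1)) i
          have e1 : KK n - (x+1) + 1 = KK n - x := by omega
          have e2 : ((KK n - (x+1) : ℕ) : ℤ) + 1 + i = (KK n : ℤ) - x + i := by omega
          have e3 : ((KK n - (x+1) : ℕ) : ℤ) + 1 - i = (KK n : ℤ) - x - i := by omega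
          rw [e1, e2, e3] at h1
          rcases le_or_gt i (KK n - (x+1)) with h2 | h2
          · have p1 : 0 < sn n ((KK n : ℤ) - x + i) := sn_pos (by omega) (by omega)
            have p2 : 0 ≤ vk n (KK n - x) i := vk_nonneg (by omega)
            have p3 : sn n ((KK n : ℤ) - x - i) ≤ sn n ((KK n : ℤ) - x + i) := by
              exact sn_shift_le hn (by omega) (by omega)
            rw [← mul_le_mul_iff_left₀ p1, h1]
            exact mul_le_mul_of_nonneg_left p3 p2
          · rw [vk_eq_zero_left h2]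
            exact vk_nonneg (by omega)
      have := step (KK n - k) (by omega)
      have e : KK n - (KK n - k) = k := by omega
      rwa [e] at this
    · rw [vk_eq_zero_left hi, vk_eq_zero_left (by omega)]
  rcases le_or_gt k (KK n) with h | h
  · exact key k h
  · rw [← vk_refl hk]
    apply key
    unfold KK at *
    omega

end Pool.Agent.Helper42.T1
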