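import Pool.Agent.Helper42.T1.ZZ

/-! # The growth rate of the state sum: the limit -/

set_option linter.unusedSimpArgs false
set_option linter.unusedVariables false

namespace Pool.Agent.Helper42.T1
open Finset Filter Topology Pool.Agent.Helper39.VC Pool.Agent.Helper39.AB Pool.Agent.Helper5.TV

theorem poly_le_exp (k : ℕ) (C : ℝ) {ε : ℝ} (hε : 0 < ε) :
    ∀ᶠ n : ℕ in atTop, C * (n:ℝ) ^ k ≤ Real.exp (ε * n) := by
  have h := (isLittleO_pow_exp_pos_mul_atTop k hε).comp_tendsto tendsto_natCast_atTop_atTop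
  have h2 := h.bound (c := 1 / (|C| + 1)) (by positivity)
  filter_upwards [h2] with n hn
  simp only [Function.comp, Real.norm_eq_abs, abs_pow, Nat.abs_cast, Real.abs_exp] at hn
  have h3 : (0:ℝ) ≤ (n:ℝ)^k := by positivity
  calc C * (n:ℝ)^k ≤ (|C| + 1) * (n:ℝ)^k := by
        apply mul_le_mul_of_nonneg_right _ h3
        linarith [le_abs_self C]
    _ ≤ (|C| + 1) * (1 / (|C| + 1) * Real.exp (ε * n)) :=
        mul_le_mul_of_nonneg_left hn (by positivity)
    _ = Real.exp (ε * n) := by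
        rw [← mul_assoc, mul_one_div_cancel (by positivity), one_mul]

theorem sh_nonneg {n : ℕ} {f : ℕ → ℝ} (hf : ∀ i, 0 ≤ f i) (δ : ℤ) (s : Fin n) : 0 ≤ sh f δ s := by
  unfold sh; split_ifs
  · exact hf _
  · exact le_rfl

theorem sh_le {n : ℕ} {f : ℕ → ℝ} {C : ℝ} (hC : 0 ≤ C) (hf : ∀ i, i < n → f i ≤ C) (δ : ℤ) (s : Fin n) :
    sh f δ s ≤ C := by
  unfold sh; split_ifs with h
  · exact hf _ (by omega)
  · exact hC

theorem Tv_le {n : ℕ} (hn : 0 < n) (δ : ℤ) : Tv n δ ≤ n * Real.exp (n * (2 * kap)) := by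
  have hK : KK n < n := by unfold KK; omega
  unfold Tv
  have h : ∀ t ∈ (univ : Finset (Fin n)), vk n (KK n) t * sh (vk n (KK n)) δ t
      ≤ Real.exp (n * (2 * kap)) := by
    intro t _
    have e : Real.exp (n * (2 * kap)) = Real.exp (n * kap) * Real.exp (n * kap) := by
      rw [← Real.exp_add]; congr 1; ring
    rw [e]
    exact mul_le_mul (vk_upper hK) (sh_le (Real.exp_pos _).le (fun i _ => vk_upper hK) δ t)
      (sh_nonneg (fun i => vk_nonneg hK) δ t) (Real.exp_pos _).le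
  refine (sum_le_sum h).trans ?_
  rw [sum_const, card_univ, Fintype.card_fin, nsmul_eq_mul]

theorem Tv_nonneg {n : ℕ} (hn : 0 < n) (δ : ℤ) : 0 ≤ Tv n δ := by
  have hK : KK n < n := by unfold KK; omega
  exact sum_nonneg (fun t _ => mul_nonneg (vk_nonneg hK) (sh_nonneg (fun i => vk_nonneg hK) δ t))

theorem Tw_nonneg {η : ℝ} {n : ℕ} (hn : 0 < n) (δ : ℤ) : 0 ≤ Tw η n δ :=
  sum_nonneg (fun t _ => mul_nonneg (wv_nonneg hn _) (sh_nonneg (fun i => wv_nonneg hn i) δ t))

theorem Tw_le_Tv {η : ℝ} {n : ℕ} (hn : 0 < n) (δ : ℤ) : Tw η n δ ≤ Tv n δ := by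
  apply sum_le_sum
  intro t _
  apply mul_le_mul (wv_le hn _) _ (sh_nonneg (fun i => wv_nonneg hn i) δ t)
    (vk_nonneg (by unfold KK; omega))
  unfold sh; split_ifs
  · exact wv_le hn _
  · exact le_rfl

/-- the overlap outside of the window -/
theorem Tv_sub_Tw {η c : ℝ} (hc : c < kap) {n : ℕ} (hn : 0 < n)
    (H : ∀ k i : ℕ, k < n → η ≤ |Real.pi / n * i - Real.pi/4| → vk n k i ≤ Real.exp (n * c)) (δ : ℤ) :
    Tv n δ - Tw η n δ ≤ n * Real.exp (n * (kap + c)) := by
  have hK : KK n < n := by unfold KK; omega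
  unfold Tv Tw
  rw [← sum_sub_distrib]
  have h : ∀ t ∈ (univ : Finset (Fin n)), vk n (KK n) t * sh (vk n (KK n)) δ t
      - wv η n t * sh (wv η n) δ t ≤ Real.exp (n * (kap + c)) := by
    intro t _
    by_cases h1 : |Real.pi / n * ((t:ℕ):ℝ) - Real.pi/4| < η
    · by_cases h2 : |Real.pi / n * (((((t:ℕ):ℤ) - δ).toNat : ℕ) : ℝ) - Real.pi/4| < η
      · have e1 : wv η n t = vk n (KK n) t := by unfold wv; rw [if_pos h1]
        have e2 : sh (wv η n) δ t = sh (vk n (KK n)) δ t := by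
          unfold sh
          split_ifs with h3
          · unfold wv; rw [if_pos h2]
          · rfl
        rw [e1, e2, sub_self]
        exact (Real.exp_pos _).le
      · have h3 : sh (vk n (KK n)) δ t ≤ Real.exp (n * c) := by
          unfold sh
          split_ifs
          · exact H _ _ hK (not_lt.1 h2)
          · exact (Real.exp_pos _).le
        have h4 : 0 ≤ wv η n t * sh (wv η n) δ t :=
          mul_nonneg (wv_nonneg hn _) (sh_nonneg (fun i => wv_nonneg hn i) δ t)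
        have h5 : vk n (KK n) t * sh (vk n (KK n)) δ t ≤ Real.exp (n * kap) * Real.exp (n * c) :=
          mul_le_mul (vk_upper hK) h3 (sh_nonneg (fun i => vk_nonneg hK) δ t) (Real.exp_pos _).le
        rw [← Real.exp_add] at h5
        have e : (n:ℝ) * kap + n * c = n * (kap + c) := by ring
        rw [e] at h5
        linarith
    · have h3 : vk n (KK n) t ≤ Real.exp (n * c) := H _ _ hK (not_lt.1 h1)
      have h4 : 0 ≤ wv η n t * sh (wv η n) δ t :=
          mul_nonneg (wv_nonneg hn _) (sh_nonneg (fun i => wv_nonneg hn i) δ t)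
      have h5 : vk n (KK n) t * sh (vk n (KK n)) δ t ≤ Real.exp (n * c) * Real.exp (n * kap) :=
          mul_le_mul h3 (sh_le (Real.exp_pos _).le (fun i _ => vk_upper hK) δ t)
            (sh_nonneg (fun i => vk_nonneg hK) δ t) (Real.exp_pos _).le
      rw [← Real.exp_add] at h5
      have e : (n:ℝ) * c + n * kap = n * (kap + c) := by ring
      rw [e] at h5
      linarith
  refine (sum_le_sum h).trans ?_
  rw [sum_const, card_univ, Fintype.card_fin, nsmul_eq_mul]

theorem ZZ_eq (n : ℕ) (w : List (ℤ × ℤ)) :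
    ZZ n w = ∑ δ ∈ Ioo (-(n:ℤ)) n, (((flat w).map (GG n δ)).prod).trace := by
  unfold ZZ
  apply sum_congr rfl
  intro δ _
  rw [flat_prod]

theorem card_le (n : ℕ) : (((Ioo (-(n:ℤ)) n).card : ℕ) : ℝ) ≤ 2 * n := by
  rw [Int.card_Ioo]
  have : ((n:ℤ) - -(n:ℤ) - 1).toNat ≤ 2 * n := by omega
  exact_mod_cast this

theorem ZZ_upper {w : List (ℤ × ℤ)} (hw : w ≠ []) {n : ℕ} (hn : 0 < n) :
    ‖ZZ n w‖ ≤ 2 * (n:ℝ) ^ (4 * w.length + 1) * Real.exp (n * (4 * w.length * kap)) := by
  have hfl : flat w ≠ [] := by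
    intro h
    have := flat_length w
    rw [h] at this
    have h2 : w.length = 0 := by
      rw [List.length_nil] at this
      omega
    exact hw (List.length_eq_zero_iff.1 h2)
  rw [ZZ_eq]
  refine (norm_sum_le _ _).trans ?_
  have h : ∀ δ ∈ Ioo (-(n:ℤ)) n, ‖(((flat w).map (GG n δ)).prod).trace‖
      ≤ (n:ℝ) ^ (4 * w.length) * Real.exp (n * (4 * w.length * kap)) := by
    intro δ _
    refine (trace_upper hfl hn δ).trans ?_
    rw [flat_length]
    calc (n:ℝ) ^ (2 * w.length) * Tv n δ ^ (2 * w.length)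
        ≤ (n:ℝ) ^ (2 * w.length) * (n * Real.exp (n * (2 * kap))) ^ (2 * w.length) := by
          apply mul_le_mul_of_nonneg_left _ (by positivity)
          exact pow_le_pow_left₀ (Tv_nonneg hn δ) (Tv_le hn δ) _
      _ = (n:ℝ) ^ (4 * w.length) * Real.exp (n * (4 * w.length * kap)) := by
          rw [mul_pow, ← Real.exp_nat_mul, ← mul_assoc, ← pow_add]
          congr 2
          · ring
          · push_cast; ring
  refine (sum_le_sum h).trans ?_
  rw [sum_const, nsmul_eq_mul]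
  calc (((Ioo (-(n:ℤ)) n).card : ℕ) : ℝ) * ((n:ℝ) ^ (4 * w.length) * Real.exp (n * (4 * w.length * kap)))
      ≤ (2 * n) * ((n:ℝ) ^ (4 * w.length) * Real.exp (n * (4 * w.length * kap))) := by
        apply mul_le_mul_of_nonneg_right (card_le n)
        positivity
    _ = _ := by ring

theorem Tw_lower {η ε : ℝ} (hη : 0 < η) (hε : 0 < ε) : ∀ᶠ n : ℕ in atTop,
    Real.exp (n * (2 * (kap - ε))) ≤ Tw η n 0 := by
  have l1 := div_limit 4 (by norm_num)
  have l2 : ∀ᶠ n : ℕ in atTop, |((n/4:ℕ):ℝ) * hh n - Real.pi/4| < η := by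
    have := l1.eventually (Metric.ball_mem_nhds _ hη)
    filter_upwards [this] with n hn
    rw [Real.dist_eq] at hn
    exact_mod_cast hn
  filter_upwards [l2, vk_lower hε, eventually_gt_atTop 3] with n h1 h2 h3
  have hn : 0 < n := by omega
  have h1' : |Real.pi / n * ((n/4:ℕ):ℝ) - Real.pi/4| < η := by
    have : Real.pi / n * ((n/4:ℕ):ℝ) = ((n/4:ℕ):ℝ) * hh n := by unfold hh; ring
    rw [this]; exact h1
  unfold Tw
  have h4 : ∀ t ∈ (univ : Finset (Fin n)), 0 ≤ wv η n t * sh (wv η n) 0 t :=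
    fun t _ => mul_nonneg (wv_nonneg hn _) (sh_nonneg (fun i => wv_nonneg hn i) 0 t)
  refine le_trans ?_ (single_le_sum h4 (mem_univ (⟨n/4, by omega⟩ : Fin n)))
  have e1 : ∀ t : Fin n, sh (wv η n) 0 t = wv η n t := by
    intro t
    have h5 := t.2
    unfold sh
    rw [if_pos]
    · simp
    · constructor
      · simp
      · simp only [sub_zero]
        exact_mod_cast h5
  rw [e1]
  simp only
  unfold wv
  rw [if_pos h1']
  have e : Real.exp (n * (2 * (kap - ε))) = Real.exp (n * (kap - ε)) * Real.exp (n * (kap - ε)) := by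
    rw [← Real.exp_add]; congr 1; ring
  rw [e]
  exact mul_le_mul h2 h2 (Real.exp_pos _).le ((Real.exp_pos _).le.trans h2)

/-- **lower bound** -/
theorem ZZ_lower {w : List (ℤ × ℤ)} (hw : w ≠ []) {ε : ℝ} (hε : 0 < ε) : ∀ᶠ n : ℕ in atTop,
    Real.exp (n * (4 * w.length * kap - ε)) ≤ ‖ZZ n w‖ := by
  set W := flat w with hW
  set N := W.length with hN
  have hNw : N = 2 * w.length := flat_length w
  have hwl : 0 < w.length := List.length_pos_iff.2 hw
  have hN0 : 0 < N := by omega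
  have hfl : W ≠ [] := List.length_pos_iff.1 hN0
  -- choice of ε₀ with (1+ε₀)^N - 1 ≤ 1/2
  obtain ⟨ε₀, hε₀, hpow⟩ : ∃ ε₀ : ℝ, 0 < ε₀ ∧ (1 + ε₀) ^ N - 1 ≤ 1/2 := by
    have hcont : Tendsto (fun x : ℝ => (1 + x) ^ N - 1) (𝓝[>] 0) (𝓝 ((1 + 0) ^ N - 1)) := by
      apply Tendsto.mono_left _ nhdsWithin_le_nhds
      apply Continuous.tendsto
      fun_prop
    have h1 : ((1:ℝ) + 0) ^ N - 1 = 0 := by simp
    rw [h1] at hcont
    have h2 := hcont.eventually (gt_mem_nhds (show (0:ℝ) < 1/2 by norm_num))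
    have h3 := h2.and self_mem_nhdsWithin
    obtain ⟨x, hx1, hx2⟩ := h3.exists
    exact ⟨x, hx2, hx1.le⟩
  obtain ⟨η, hη, Hwin⟩ := window_list W hε₀
  obtain ⟨c, hc, Hgap⟩ := vk_gap hη
  -- constants
  set g := kap - c with hg
  have hgpos : 0 < g := by linarith
  set CW : ℝ := (W.map (fun a => 2 * ‖cc a‖)).prod with hCW
  have hCWpos : 0 < CW := by
    rw [hCW]
    apply List.prod_pos
    intro x hx
    obtain ⟨a, _, rfl⟩ := List.mem_map.1 hx
    have := norm_pos_iff.2 (cc_ne a)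
    positivity
  set e1 : ℝ := min (ε / (4 * N)) (g / (4 * N)) with he1
  have hNr : (0:ℝ) < N := by exact_mod_cast hN0
  have he1pos : 0 < e1 := lt_min (by positivity) (by positivity)
  have he1a : 4 * N * e1 ≤ ε := by
    have : e1 ≤ ε / (4 * N) := min_le_left _ _
    rw [le_div_iff₀ (by positivity)] at this
    linarith
  have he1b : 4 * N * e1 ≤ g := by
    have : e1 ≤ g / (4 * N) := min_le_right _ _
    rw [le_div_iff₀ (by positivity)] at this
    linarith
  have hpoly := poly_le_exp (2 * N + 1) (2 * N * 4 / CW) (show 0 < g/2 by linarith)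
  have hpoly2 := poly_le_exp 0 (4 / CW) (show 0 < ε/2 by linarith)
  filter_upwards [Hwin, Tw_lower hη he1pos, hpoly, hpoly2, eventually_gt_atTop 0] with n h1 h2 h3 h4 hn
  have hnr : (1:ℝ) ≤ n := by exact_mod_cast hn
  -- the main term
  set S : ℝ := ∑ δ ∈ Ioo (-(n:ℤ)) n, Tw η n δ ^ N with hS
  set M : ℝ := (W.map (fun a => ‖mu n a‖)).prod with hM
  have hMeq : M = CW * Real.sqrt n ^ N := by
    rw [hM, hCW]
    have : (fun a => ‖mu n a‖) = fun a => (2 * ‖cc a‖) * Real.sqrt n := by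
      funext a; exact norm_mu n a
    rw [this, List.prod_map_mul, List.map_const', List.prod_replicate]
  have hsq : 1 ≤ Real.sqrt n := by
    rw [← Real.sqrt_one]; exact Real.sqrt_le_sqrt hnr
  have hM1 : CW ≤ M := by
    rw [hMeq]
    have : 1 ≤ Real.sqrt n ^ N := one_le_pow₀ hsq
    nlinarith
  have hMpos : 0 < M := hCWpos.trans_le hM1
  have hnormM : ‖(W.map (mu n)).prod‖ = M := by
    rw [hM]
    have hind : ∀ L : List ℤ, ‖(L.map (mu n)).prod‖ = (L.map (fun a => ‖mu n a‖)).prod := by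
      intro L
      induction L with
      | nil => simp
      | cons a L ih => rw [List.map_cons, List.map_cons, List.prod_cons, List.prod_cons, norm_mul, ih]
    exact hind W
  -- junk
  set J : ℝ := n ^ N * (N * ((n * Real.exp (n * (2 * kap))) ^ (N-1) * (n * Real.exp (n * (kap + c))))) with hJ
  have hjunk : ∀ δ : ℤ, (n:ℝ) ^ N * Tv n δ ^ N - (n:ℝ) ^ N * Tw η n δ ^ N ≤ J := by
    intro δ
    rw [← mul_sub, hJ]
    apply mul_le_mul_of_nonneg_left _ (by positivity)
    have a1 := abs_pow_sub_pow_le (Tv n δ) (Tw η n δ) N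
    have a2 : |Tv n δ| = Tv n δ := abs_of_nonneg (Tv_nonneg hn δ)
    have a3 : |Tw η n δ| = Tw η n δ := abs_of_nonneg (Tw_nonneg hn δ)
    have a4 : |Tv n δ - Tw η n δ| = Tv n δ - Tw η n δ :=
      abs_of_nonneg (by linarith [Tw_le_Tv (η := η) hn δ])
    have a5 : max (Tv n δ) (Tw η n δ) = Tv n δ := max_eq_left (Tw_le_Tv hn δ)
    rw [a2, a3, a4, a5] at a1
    refine (le_abs_self _).trans (a1.trans ?_)
    have b1 := Tv_sub_Tw (η := η) hc hn (fun k i hk hi => Hgap n k i hk hi) δ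
    have b2 : Tv n δ ^ (N-1) ≤ (n * Real.exp (n * (2 * kap))) ^ (N-1) :=
      pow_le_pow_left₀ (Tv_nonneg hn δ) (Tv_le hn δ) _
    calc (Tv n δ - Tw η n δ) * N * Tv n δ ^ (N-1)
        ≤ (n * Real.exp (n * (kap + c))) * N * (n * Real.exp (n * (2 * kap))) ^ (N-1) := by
          apply mul_le_mul _ b2 (pow_nonneg (Tv_nonneg hn δ) _) (by positivity)
          exact mul_le_mul_of_nonneg_right b1 (by positivity)
      _ = _ := by ring
  have hdiff : ‖ZZ n w - (W.map (mu n)).prod * (S : ℂ)‖ ≤ 2 * n * J + 1/2 * M * S := by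
    have e : ZZ n w - (W.map (mu n)).prod * (S : ℂ)
        = ∑ δ ∈ Ioo (-(n:ℤ)) n, (((W.map (GG n δ)).prod).trace
          - (W.map (mu n)).prod * ((Tw η n δ : ℝ) : ℂ) ^ N) := by
      rw [sum_sub_distrib, ← mul_sum, ZZ_eq, hS]
      push_cast
      rfl
    rw [e]
    refine (norm_sum_le _ _).trans ?_
    have hb : ∀ δ ∈ Ioo (-(n:ℤ)) n, ‖((W.map (GG n δ)).prod).trace
          - (W.map (mu n)).prod * ((Tw η n δ : ℝ) : ℂ) ^ N‖ ≤ J + 1/2 * M * Tw η n δ ^ N := by
      intro δ _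
      refine (trace_compare hfl hε₀ hn δ h1).trans (add_le_add (hjunk δ) ?_)
      have t0 : 0 ≤ Tw η n δ ^ N := pow_nonneg (Tw_nonneg hn δ) _
      apply mul_le_mul_of_nonneg_right _ t0
      exact mul_le_mul_of_nonneg_right hpow hMpos.le
    refine (sum_le_sum hb).trans ?_
    have hsum : ∑ δ ∈ Ioo (-(n:ℤ)) n, (J + 1/2 * M * Tw η n δ ^ N)
        = (((Ioo (-(n:ℤ)) n).card : ℕ) : ℝ) * J + 1/2 * M * S := by
      rw [sum_add_distrib, sum_const, nsmul_eq_mul, hS, mul_sum]
    rw [hsum]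
    have hJ0 : 0 ≤ J := by rw [hJ]; positivity
    have := mul_le_mul_of_nonneg_right (card_le n) hJ0
    linarith
  have hS0 : Real.exp (n * (2 * (kap - e1))) ^ N ≤ S := by
    rw [hS]
    have t0 : ∀ δ ∈ Ioo (-(n:ℤ)) n, 0 ≤ Tw η n δ ^ N := fun δ _ => pow_nonneg (Tw_nonneg hn δ) _
    refine le_trans ?_ (single_le_sum t0 (mem_Ioo.2 ⟨by omega, by omega⟩ : (0:ℤ) ∈ Ioo (-(n:ℤ)) n))
    exact pow_le_pow_left₀ (Real.exp_pos _).le h2 _
  have hX : Real.exp (n * (2 * (kap - e1))) ^ N = Real.exp (n * (2 * N * kap - 2 * N * e1)) := by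
    rw [← Real.exp_nat_mul]; congr 1; ring
  rw [hX] at hS0
  set X := Real.exp (n * (2 * N * kap - 2 * N * e1)) with hXd
  have hXpos : 0 < X := Real.exp_pos _
  -- the junk is small
  have hJX : 2 * n * J ≤ CW / 4 * X := by
    have e2 : 2 * n * J = (2 * N * 4 / CW * (n:ℝ) ^ (2 * N + 1)) * (CW/4 * Real.exp (n * (2 * N * kap - g))) := by
      rw [hJ, mul_pow, ← Real.exp_nat_mul]
      have e3 : Real.exp (((N-1:ℕ):ℝ) * (n * (2 * kap))) * Real.exp (n * (kap + c))
          = Real.exp (n * (2 * N * kap - g)) := by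
        rw [← Real.exp_add]
        congr 1
        rw [Nat.cast_sub (by omega), hg]
        push_cast; ring
      rw [← e3]
      have e4 : (n:ℝ) ^ (2 * N + 1) = n * (n ^ N * (n ^ (N-1) * n)) := by
        have : 2 * N + 1 = 1 + (N + ((N - 1) + 1)) := by omega
        rw [this, pow_add, pow_add, pow_one, pow_succ]
      rw [e4]
      field_simp
    rw [e2]
    calc (2 * N * 4 / CW * (n:ℝ) ^ (2 * N + 1)) * (CW/4 * Real.exp (n * (2 * N * kap - g)))
        ≤ Real.exp (g/2 * n) * (CW/4 * Real.exp (n * (2 * N * kap - g))) := by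
          apply mul_le_mul_of_nonneg_right h3
          positivity
      _ = CW/4 * Real.exp (n * (2 * N * kap - g) + g/2 * n) := by rw [Real.exp_add]; ring
      _ ≤ CW/4 * X := by
          apply mul_le_mul_of_nonneg_left _ (by positivity)
          apply Real.exp_le_exp.2
          nlinarith
  have hfinal : CW / 4 * X ≤ ‖ZZ n w‖ := by
    have a1 : ‖(W.map (mu n)).prod * (S : ℂ)‖ = M * S := by
      rw [norm_mul, hnormM, Complex.norm_real, Real.norm_of_nonneg (hXpos.le.trans hS0)]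
    have a2 : ‖(W.map (mu n)).prod * (S : ℂ)‖ ≤ ‖ZZ n w‖ + ‖ZZ n w - (W.map (mu n)).prod * (S : ℂ)‖ := by
      have := norm_sub_le (ZZ n w) (ZZ n w - (W.map (mu n)).prod * (S : ℂ))
      rwa [sub_sub_cancel] at this
    have a3 : CW * X ≤ M * S := mul_le_mul hM1 hS0 hXpos.le hMpos.le
    rw [a1] at a2
    linarith
  refine le_trans ?_ hfinal
  have e5 : Real.exp (n * (4 * w.length * kap - ε)) = Real.exp (n * (2 * N * kap - ε)) := by
    congr 1
    rw [hNw]; push_cast; ring
  rw [e5]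
  have a4 : 4 / CW * Real.exp (n * (2 * N * kap - ε)) ≤ X := by
    calc 4 / CW * Real.exp (n * (2 * N * kap - ε))
        ≤ Real.exp (ε/2 * n) * Real.exp (n * (2 * N * kap - ε)) := by
          apply mul_le_mul_of_nonneg_right _ (Real.exp_pos _).le
          simpa using h4
      _ = Real.exp (ε/2 * n + n * (2 * N * kap - ε)) := by rw [Real.exp_add]
      _ ≤ X := by
          apply Real.exp_le_exp.2
          nlinarith
  calc Real.exp (n * (2 * N * kap - ε)) = CW / 4 * (4 / CW * Real.exp (n * (2 * N * kap - ε))) := by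
        field_simp
    _ ≤ CW / 4 * X := mul_le_mul_of_nonneg_left a4 (by positivity)

theorem ZZ_ne {w : List (ℤ × ℤ)} (hw : w ≠ []) : ∀ᶠ n : ℕ in atTop, ZZ n w ≠ 0 := by
  filter_upwards [ZZ_lower hw one_pos] with n hn h
  rw [h, norm_zero] at hn
  exact absurd hn (not_le.2 (Real.exp_pos _))

/-- **the growth rate of the state sum** -/
theorem ZZ_limit (w : List (ℤ × ℤ)) (hw : w ≠ []) :
    Tendsto (fun n : ℕ => Real.log ‖ZZ n w‖ / n) atTop
      (𝓝 (16 * w.length * lob (Real.pi/4) / Real.pi)) := by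
  have e : 16 * w.length * lob (Real.pi/4) / Real.pi = 4 * w.length * kap := by unfold kap; ring
  rw [e]
  apply tendsto_order.2
  constructor
  · intro a ha
    have h := ZZ_lower hw (ε := (4 * w.length * kap - a)/2) (by linarith)
    filter_upwards [h, eventually_gt_atTop 0] with n h1 hn
    have hn' : (0:ℝ) < n := by exact_mod_cast hn
    have hpos : 0 < ‖ZZ n w‖ := (Real.exp_pos _).trans_le h1
    rw [lt_div_iff₀ hn']
    have h2 := (Real.le_log_iff_exp_le hpos).2 h1
    nlinarith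
  · intro a ha
    have h := poly_le_exp (4 * w.length + 1) 2 (show 0 < (a - 4 * w.length * kap)/2 by linarith)
    filter_upwards [h, ZZ_ne hw, eventually_gt_atTop 0] with n h1 h0 hn
    have hn' : (0:ℝ) < n := by exact_mod_cast hn
    have hpos : 0 < ‖ZZ n w‖ := norm_pos_iff.2 h0
    have h2 := ZZ_upper hw hn
    have h3 : ‖ZZ n w‖ ≤ Real.exp ((a - 4 * w.length * kap)/2 * n + n * (4 * w.length * kap)) := by
      rw [Real.exp_add]
      refine h2.trans ?_
      exact mul_le_mul_of_nonneg_right h1 (Real.exp_pos _).le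
    have h4 := (Real.log_le_iff_le_exp hpos).2 h3
    rw [div_lt_iff₀ hn']
    nlinarith

end Pool.Agent.Helper42.T1
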