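import Pool.Agent.Helper42.T1.FL

/-! # The growth rate of the state sum -/

set_option linter.unusedSimpArgs false
set_option linter.unusedVariables false
set_option linter.unusedSectionVars false

namespace Pool.Agent.Helper42.T1
open Finset Filter Topology Pool.Agent.Helper39.VC Pool.Agent.Helper39.AB Pool.Agent.Helper5.TV

section Dom
variable {ι α : Type*} [Fintype ι] [DecidableEq ι]

/-- entrywise domination -/
def Dom (A : Matrix ι ι ℂ) (B : Matrix ι ι ℝ) : Prop := ∀ r s, ‖A r s‖ ≤ B r s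

theorem Dom.mul {A A' : Matrix ι ι ℂ} {B B' : Matrix ι ι ℝ} (h : Dom A B) (h' : Dom A' B') :
    Dom (A * A') (B * B') := by
  intro r s
  rw [Matrix.mul_apply, Matrix.mul_apply]
  refine (norm_sum_le _ _).trans (sum_le_sum ?_)
  intro t _
  rw [norm_mul]
  exact mul_le_mul (h r t) (h' t s) (norm_nonneg _) ((norm_nonneg _).trans (h r t))

theorem Dom.add {A A' : Matrix ι ι ℂ} {B B' : Matrix ι ι ℝ} (h : Dom A B) (h' : Dom A' B') :
    Dom (A + A') (B + B') := by
  intro r s
  exact (norm_add_le _ _).trans (add_le_add (h r s) (h' r s))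

theorem Dom.trace {A : Matrix ι ι ℂ} {B : Matrix ι ι ℝ} (h : Dom A B) : ‖A.trace‖ ≤ B.trace := by
  unfold Matrix.trace
  exact (norm_sum_le _ _).trans (sum_le_sum (fun t _ => h t t))

theorem dom_one : Dom (1 : Matrix ι ι ℂ) (1 : Matrix ι ι ℝ) := by
  intro r s
  rw [Matrix.one_apply, Matrix.one_apply]
  split_ifs <;> simp

theorem dom_prod (W : List α) (A A' : α → Matrix ι ι ℂ) (Q Q' : α → Matrix ι ι ℝ)
    (h1 : ∀ a ∈ W, Dom (A' a) (Q' a)) (h2 : ∀ a ∈ W, Dom (A a - A' a) (Q a - Q' a)) :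
    Dom ((W.map A).prod) ((W.map Q).prod) ∧ Dom ((W.map A').prod) ((W.map Q').prod) ∧
    Dom ((W.map A).prod - (W.map A').prod) ((W.map Q).prod - (W.map Q').prod) := by
  induction W with
  | nil =>
    refine ⟨dom_one, dom_one, ?_⟩
    intro r s
    simp
  | cons a W ih =>
    obtain ⟨i1, i2, i3⟩ := ih (fun b hb => h1 b (List.mem_cons_of_mem _ hb))
      (fun b hb => h2 b (List.mem_cons_of_mem _ hb))
    have k1 := h1 a List.mem_cons_self
    have k2 := h2 a List.mem_cons_self
    have k3 : Dom (A a) (Q a) := by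
      have := k1.add k2
      have e1 : A' a + (A a - A' a) = A a := by abel
      have e2 : Q' a + (Q a - Q' a) = Q a := by abel
      rwa [e1, e2] at this
    simp only [List.map_cons, List.prod_cons]
    refine ⟨k3.mul i1, k1.mul i2, ?_⟩
    have := (k1.mul i3).add (k2.mul i1)
    have e1 : A' a * ((W.map A).prod - (W.map A').prod) + (A a - A' a) * (W.map A).prod
        = A a * (W.map A).prod - A' a * (W.map A').prod := by noncomm_ring
    have e2 : Q' a * ((W.map Q).prod - (W.map Q').prod) + (Q a - Q' a) * (W.map Q).prod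
        = Q a * (W.map Q).prod - Q' a * (W.map Q').prod := by noncomm_ring
    rwa [e1, e2] at this

end Dom

section Rank
variable {ι α R : Type*} [Fintype ι] [DecidableEq ι] [CommRing R]

theorem rank_one_prod (W : List α) (c : α → R) (u u' : ι → R) (a : α) :
    (((a :: W).map (fun a => c a • Matrix.vecMulVec u u')).prod)
      = (((a :: W).map c).prod * (∑ t, u t * u' t) ^ W.length) • Matrix.vecMulVec u u' := by
  induction W generalizing a with
  | nil => simp
  | cons b W ih =>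
    rw [List.map_cons, List.prod_cons, ih b]
    ext r s
    simp only [Matrix.smul_mul, Matrix.mul_smul, Matrix.smul_apply, smul_eq_mul,
      Matrix.mul_apply, Matrix.vecMulVec_apply, List.map_cons, List.prod_cons, List.length_cons]
    have e : ∀ X : R, ∑ x, c a * (u r * u' x) * (X * (u x * u' s))
        = (c a * X * (u r * u' s)) * ∑ t, u t * u' t := by
      intro X
      rw [mul_sum]
      apply sum_congr rfl
      intro x _
      ring
    rw [e]; ring

theorem rank_one_trace {W : List α} (hW : W ≠ []) (c : α → R) (u u' : ι → R) :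
    ((W.map (fun a => c a • Matrix.vecMulVec u u')).prod).trace
      = (W.map c).prod * (∑ t, u t * u' t) ^ W.length := by
  obtain ⟨a, W, rfl⟩ := List.exists_cons_of_ne_nil hW
  rw [rank_one_prod, Matrix.trace_smul, smul_eq_mul, List.length_cons, pow_succ, ← mul_assoc]
  congr 1

end Rank

/-- flattened word -/
def flat (w : List (ℤ × ℤ)) : List ℤ := w.flatMap (fun p => [p.1, p.2])

theorem flat_length (w : List (ℤ × ℤ)) : (flat w).length = 2 * w.length := by
  induction w with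
  | nil => simp [flat]
  | cons p w ih =>
    have : flat (p :: w) = p.1 :: p.2 :: flat w := by simp [flat]
    rw [this]
    simp only [List.length_cons, ih]
    ring

theorem flat_prod {M : Type*} [Monoid M] (G : ℤ → M) (w : List (ℤ × ℤ)) :
    (w.map (fun p => G p.1 * G p.2)).prod = ((flat w).map G).prod := by
  induction w with
  | nil => simp [flat]
  | cons p w ih =>
    have : flat (p :: w) = p.1 :: p.2 :: flat w := by simp [flat]
    rw [this, List.map_cons, List.prod_cons, ih, List.map_cons, List.map_cons, List.prod_cons,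
      List.prod_cons, mul_assoc]

/-- the shift of a vector -/
noncomputable def sh {n : ℕ} (f : ℕ → ℝ) (δ : ℤ) (s : Fin n) : ℝ :=
  if 0 ≤ ((s:ℕ):ℤ) - δ ∧ ((s:ℕ):ℤ) - δ < n then f (((s:ℕ):ℤ) - δ).toNat else 0

open Classical in
/-- the part of the central vector in the window -/
noncomputable def wv (η : ℝ) (n r : ℕ) : ℝ :=
  if |Real.pi / n * r - Real.pi/4| < η then vk n (KK n) r else 0

theorem wv_nonneg {η : ℝ} {n : ℕ} (hn : 0 < n) (r : ℕ) : 0 ≤ wv η n r := by
  unfold wv
  split_ifs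
  · exact vk_nonneg (by unfold KK; omega)
  · exact le_rfl

theorem wv_le {η : ℝ} {n : ℕ} (hn : 0 < n) (r : ℕ) : wv η n r ≤ vk n (KK n) r := by
  unfold wv
  split_ifs
  · exact le_rfl
  · exact vk_nonneg (by unfold KK; omega)

open Classical in
/-- the window part of the matrix -/
noncomputable def GW (η : ℝ) (n : ℕ) (δ a : ℤ) : Matrix (Fin n) (Fin n) ℂ :=
  fun r s => if |Real.pi / n * ((r:ℕ):ℝ) - Real.pi/4| < η ∧
    |Real.pi / n * (((((s:ℕ):ℤ) - δ).toNat : ℕ) : ℝ) - Real.pi/4| < η then GG n δ a r s else 0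

theorem dom_GG {n : ℕ} (hn : 0 < n) (δ a : ℤ) (r s : Fin n) :
    ‖GG n δ a r s‖ ≤ n * (vk n (KK n) r * sh (vk n (KK n)) δ s) := by
  unfold GG sh
  split_ifs with h
  · exact norm_FF_le hn a _ _
  · simp

theorem dom_GW {η : ℝ} {n : ℕ} (hn : 0 < n) (δ a : ℤ) :
    Dom (GW η n δ a) ((n:ℝ) • Matrix.vecMulVec (fun r : Fin n => wv η n r) (sh (wv η n) δ)) := by
  intro r s
  rw [Matrix.smul_apply, Matrix.vecMulVec_apply, smul_eq_mul]
  unfold GW
  split_ifs with h
  · refine (dom_GG hn δ a r s).trans ?_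
    unfold sh wv
    rw [if_pos h.1]
    split_ifs <;> simp_all
  · rw [norm_zero]
    have h1 := wv_nonneg (η := η) hn r
    have h2 : 0 ≤ sh (wv η n) δ s := by
      unfold sh; split_ifs
      · exact wv_nonneg hn _
      · exact le_rfl
    positivity

theorem dom_GG_sub_GW {η : ℝ} {n : ℕ} (hn : 0 < n) (δ a : ℤ) :
    Dom (GG n δ a - GW η n δ a) ((n:ℝ) • Matrix.vecMulVec (fun r : Fin n => vk n (KK n) r)
      (sh (vk n (KK n)) δ) - (n:ℝ) • Matrix.vecMulVec (fun r : Fin n => wv η n r) (sh (wv η n) δ)) := by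
  intro r s
  rw [Matrix.sub_apply, Matrix.sub_apply, Matrix.smul_apply, Matrix.smul_apply,
    Matrix.vecMulVec_apply, Matrix.vecMulVec_apply, smul_eq_mul, smul_eq_mul]
  unfold GW
  split_ifs with h
  · rw [sub_self, norm_zero]
    have e1 : wv η n r = vk n (KK n) r := by unfold wv; rw [if_pos h.1]
    have e2 : sh (wv η n) δ s = sh (vk n (KK n)) δ s := by
      unfold sh
      split_ifs with h3
      · unfold wv; rw [if_pos h.2]
      · rfl
    rw [e1, e2, sub_self]
  · rw [sub_zero]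
    have e : wv η n r * sh (wv η n) δ s = 0 := by
      by_cases h1 : |Real.pi / n * ((r:ℕ):ℝ) - Real.pi/4| < η
      · have h2 : ¬ |Real.pi / n * (((((s:ℕ):ℤ) - δ).toNat : ℕ) : ℝ) - Real.pi/4| < η :=
          fun h2 => h ⟨h1, h2⟩
        have : sh (wv η n) δ s = 0 := by
          unfold sh
          split_ifs
          · unfold wv; rw [if_neg h2]
          · rfl
        rw [this, mul_zero]
      · have : wv η n r = 0 := by unfold wv; rw [if_neg h1]
        rw [this, zero_mul]
    rw [e, mul_zero, sub_zero]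
    exact dom_GG hn δ a r s

/-- the multiplier -/
noncomputable def mu (n : ℕ) (a : ℤ) : ℂ := lk n (KK n) ^ a * (2 * cc a) * (Real.sqrt n : ℂ)

theorem norm_mu (n : ℕ) (a : ℤ) : ‖mu n a‖ = 2 * ‖cc a‖ * Real.sqrt n := by
  unfold mu
  rw [norm_mul, norm_mul, norm_lk_zpow, one_mul, norm_mul, Complex.norm_real,
    Real.norm_of_nonneg (Real.sqrt_nonneg _)]
  norm_num

/-- uniform window for a list of exponents -/
theorem window_list (W : List ℤ) {ε : ℝ} (hε : 0 < ε) : ∃ η > 0, ∀ᶠ n : ℕ in atTop, ∀ a ∈ W,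
    ∀ r s : ℕ, |Real.pi / n * r - Real.pi/4| < η → |Real.pi / n * s - Real.pi/4| < η →
    ‖FF n a r s - mu n a * ((vk n (KK n) r * vk n (KK n) s : ℝ) : ℂ)‖
      ≤ ε * ‖mu n a‖ * (vk n (KK n) r * vk n (KK n) s) := by
  induction W with
  | nil => exact ⟨1, one_pos, Eventually.of_forall (fun n a ha => by simp at ha)⟩
  | cons b W ih =>
    obtain ⟨η1, h1, H1⟩ := ih
    have hc : 0 < ‖cc b‖ := norm_pos_iff.2 (cc_ne b)
    obtain ⟨η2, h2, H2⟩ := FF_window b (ε := ε * (2 * ‖cc b‖)) (by positivity)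
    refine ⟨min η1 η2, lt_min h1 h2, ?_⟩
    filter_upwards [H1, H2] with n k1 k2 a ha r s hr hs
    rcases List.mem_cons.1 ha with rfl | ha
    · have := k2 r s (hr.trans_le (min_le_right _ _)) (hs.trans_le (min_le_right _ _))
      rw [norm_mu]
      unfold mu
      refine this.trans (le_of_eq ?_)
      ring
    · exact k1 a ha r s (hr.trans_le (min_le_left _ _)) (hs.trans_le (min_le_left _ _))

theorem dom_mu {η : ℝ} {n : ℕ} (hn : 0 < n) (δ a : ℤ) :
    Dom (mu n a • Matrix.vecMulVec (fun r : Fin n => ((wv η n r : ℝ) : ℂ))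
        (fun s : Fin n => ((sh (wv η n) δ s : ℝ) : ℂ)))
      (‖mu n a‖ • Matrix.vecMulVec (fun r : Fin n => wv η n r) (sh (wv η n) δ)) := by
  intro r s
  rw [Matrix.smul_apply, Matrix.vecMulVec_apply, Matrix.smul_apply, Matrix.vecMulVec_apply,
    smul_eq_mul, smul_eq_mul, norm_mul, norm_mul, Complex.norm_real, Complex.norm_real]
  have h1 := wv_nonneg (η := η) hn r
  have h2 : 0 ≤ sh (wv η n) δ s := by
    unfold sh; split_ifs
    · exact wv_nonneg hn _
    · exact le_rfl
  rw [Real.norm_of_nonneg h1, Real.norm_of_nonneg h2]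

theorem dom_GW_sub {η ε : ℝ} (hε : 0 < ε) {n : ℕ} (hn : 0 < n) (δ a : ℤ)
    (H : ∀ r s : ℕ, |Real.pi / n * r - Real.pi/4| < η → |Real.pi / n * s - Real.pi/4| < η →
    ‖FF n a r s - mu n a * ((vk n (KK n) r * vk n (KK n) s : ℝ) : ℂ)‖
      ≤ ε * ‖mu n a‖ * (vk n (KK n) r * vk n (KK n) s)) :
    Dom (GW η n δ a - mu n a • Matrix.vecMulVec (fun r : Fin n => ((wv η n r : ℝ) : ℂ))
        (fun s : Fin n => ((sh (wv η n) δ s : ℝ) : ℂ)))
      (((1 + ε) * ‖mu n a‖) • Matrix.vecMulVec (fun r : Fin n => wv η n r) (sh (wv η n) δ)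
        - ‖mu n a‖ • Matrix.vecMulVec (fun r : Fin n => wv η n r) (sh (wv η n) δ)) := by
  intro r s
  rw [Matrix.sub_apply, Matrix.sub_apply, Matrix.smul_apply, Matrix.smul_apply, Matrix.smul_apply,
    Matrix.vecMulVec_apply, Matrix.vecMulVec_apply, smul_eq_mul, smul_eq_mul, smul_eq_mul]
  have h1 := wv_nonneg (η := η) hn r
  have h2 : 0 ≤ sh (wv η n) δ s := by
    unfold sh; split_ifs
    · exact wv_nonneg hn _
    · exact le_rfl
  have e : (1 + ε) * ‖mu n a‖ * (wv η n r * sh (wv η n) δ s) - ‖mu n a‖ * (wv η n r * sh (wv η n) δ s)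
      = ε * ‖mu n a‖ * (wv η n r * sh (wv η n) δ s) := by ring
  rw [e]
  unfold GW
  by_cases hr : |Real.pi / n * ((r:ℕ):ℝ) - Real.pi/4| < η
  · by_cases hs : |Real.pi / n * (((((s:ℕ):ℤ) - δ).toNat : ℕ) : ℝ) - Real.pi/4| < η
    · rw [if_pos ⟨hr, hs⟩]
      unfold GG sh
      split_ifs with h3
      · have := H r (((s:ℕ):ℤ) - δ).toNat hr hs
        unfold wv
        rw [if_pos hr, if_pos hs]
        rw [← Complex.ofReal_mul]
        exact this
      · simp
    · rw [if_neg (fun h => hs h.2)]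
      have : sh (wv η n) δ s = 0 := by
        unfold sh
        split_ifs
        · unfold wv; rw [if_neg hs]
        · rfl
      rw [this]; simp
  · rw [if_neg (fun h => hr h.1)]
    have : wv η n r = 0 := by unfold wv; rw [if_neg hr]
    rw [this]; simp

/-- overlap in the window -/
noncomputable def Tw (η : ℝ) (n : ℕ) (δ : ℤ) : ℝ := ∑ t : Fin n, wv η n t * sh (wv η n) δ t

/-- total overlap -/
noncomputable def Tv (n : ℕ) (δ : ℤ) : ℝ := ∑ t : Fin n, vk n (KK n) t * sh (vk n (KK n)) δ t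

/-- **comparison of one trace** -/
theorem trace_compare {W : List ℤ} (hW : W ≠ []) {η ε : ℝ} (hε : 0 < ε) {n : ℕ} (hn : 0 < n)
    (δ : ℤ) (H : ∀ a ∈ W, ∀ r s : ℕ, |Real.pi / n * r - Real.pi/4| < η →
      |Real.pi / n * s - Real.pi/4| < η →
    ‖FF n a r s - mu n a * ((vk n (KK n) r * vk n (KK n) s : ℝ) : ℂ)‖
      ≤ ε * ‖mu n a‖ * (vk n (KK n) r * vk n (KK n) s)) :
    ‖((W.map (GG n δ)).prod).trace - (W.map (mu n)).prod * ((Tw η n δ : ℝ) : ℂ) ^ W.length‖
      ≤ ((n:ℝ) ^ W.length * Tv n δ ^ W.length - (n:ℝ) ^ W.length * Tw η n δ ^ W.length)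
        + (((1 + ε) ^ W.length - 1) * (W.map (fun a => ‖mu n a‖)).prod * Tw η n δ ^ W.length) := by
  have d1 := (dom_prod W (GG n δ) (GW η n δ)
    (fun _ => (n:ℝ) • Matrix.vecMulVec (fun r : Fin n => vk n (KK n) r) (sh (vk n (KK n)) δ))
    (fun _ => (n:ℝ) • Matrix.vecMulVec (fun r : Fin n => wv η n r) (sh (wv η n) δ))
    (fun a _ => dom_GW hn δ a) (fun a _ => dom_GG_sub_GW hn δ a)).2.2.trace
  have d2 := (dom_prod W (GW η n δ) (fun a => mu n a • Matrix.vecMulVec
      (fun r : Fin n => ((wv η n r : ℝ) : ℂ)) (fun s : Fin n => ((sh (wv η n) δ s : ℝ) : ℂ)))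
    (fun a => ((1 + ε) * ‖mu n a‖) • Matrix.vecMulVec (fun r : Fin n => wv η n r) (sh (wv η n) δ))
    (fun a => ‖mu n a‖ • Matrix.vecMulVec (fun r : Fin n => wv η n r) (sh (wv η n) δ))
    (fun a _ => dom_mu hn δ a) (fun a ha => dom_GW_sub hε hn δ a (H a ha))).2.2.trace
  rw [Matrix.trace_sub, Matrix.trace_sub, rank_one_trace hW (fun _ => (n:ℝ)),
    rank_one_trace hW (fun _ => (n:ℝ))] at d1
  rw [Matrix.trace_sub, Matrix.trace_sub, rank_one_trace hW (mu n),
    rank_one_trace hW (fun a => (1 + ε) * ‖mu n a‖), rank_one_trace hW (fun a => ‖mu n a‖)] at d2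
  have e1 : (W.map (fun _ => (n:ℝ))).prod = (n:ℝ) ^ W.length := by
    rw [List.map_const', List.prod_replicate]
  have e2 : (W.map (fun a => (1 + ε) * ‖mu n a‖)).prod
      = (1 + ε) ^ W.length * (W.map (fun a => ‖mu n a‖)).prod := by
    rw [List.prod_map_mul, List.map_const', List.prod_replicate]
  have e3 : ∑ t : Fin n, ((wv η n t : ℝ) : ℂ) * ((sh (wv η n) δ t : ℝ) : ℂ) = ((Tw η n δ : ℝ) : ℂ) := by
    unfold Tw; push_cast; rfl
  rw [e1] at d1
  rw [e2, e3] at d2
  have e4 : ((W.map (GG n δ)).prod).trace - (W.map (mu n)).prod * ((Tw η n δ : ℝ) : ℂ) ^ W.length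
      = (((W.map (GG n δ)).prod).trace - ((W.map (GW η n δ)).prod).trace)
        + (((W.map (GW η n δ)).prod).trace - (W.map (mu n)).prod * ((Tw η n δ : ℝ) : ℂ) ^ W.length) := by
    ring
  rw [e4]
  refine (norm_add_le _ _).trans (add_le_add ?_ ?_)
  · exact d1
  · refine d2.trans (le_of_eq ?_)
    unfold Tw
    ring

theorem trace_upper {W : List ℤ} (hW : W ≠ []) {n : ℕ} (hn : 0 < n) (δ : ℤ) :
    ‖((W.map (GG n δ)).prod).trace‖ ≤ (n:ℝ) ^ W.length * Tv n δ ^ W.length := by
  have d1 := (dom_prod W (GG n δ) (GG n δ)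
    (fun _ => (n:ℝ) • Matrix.vecMulVec (fun r : Fin n => vk n (KK n) r) (sh (vk n (KK n)) δ))
    (fun _ => (n:ℝ) • Matrix.vecMulVec (fun r : Fin n => vk n (KK n) r) (sh (vk n (KK n)) δ))
    (fun a _ => by
      intro r s
      rw [Matrix.smul_apply, Matrix.vecMulVec_apply, smul_eq_mul]
      exact dom_GG hn δ a r s)
    (fun a _ => by intro r s; simp)).1.trace
  rw [rank_one_trace hW (fun _ => (n:ℝ)), List.map_const', List.prod_replicate] at d1
  exact d1

end Pool.Agent.Helper42.T1
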